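import Mathlib

/-!
Definitions: forced damped linear oscillators in `ℝ^d` and the optimal velocity constant.
-/

namespace Pool.Agent.Q177.Osc

open MeasureTheory Set Filter
open scoped Topology ENNReal

/-- Euclidean `d`-space. -/
abbrev Vec (d : ℕ) := EuclideanSpace ℝ (Fin d)

/-- `u` (with derivative `v`) is a solution on `[0, ∞)` of `u'' + c u' + A u = f`: `u` is `C¹`
with derivative `v`, `v` is locally absolutely continuous, and the equation holds almost
everywhere. -/
structure IsSolution {d : ℕ} (A : Matrix (Fin d) (Fin d) ℝ) (c : ℝ) (f u v : ℝ → Vec d) :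
    Prop where
  deriv_u : ∀ t, 0 ≤ t → HasDerivWithinAt u (v t) (Ici 0) t
  ac_v : ∀ T, 0 ≤ T → AbsolutelyContinuousOnInterval v 0 T
  ode : ∀ᵐ t : ℝ, 0 ≤ t → HasDerivAt v (f t - c • v t - Matrix.toEuclideanLin A (u t)) t

/-- The essential limit superior of `|f(t)|` as `t → ∞`. -/
noncomputable def essLimsup {d : ℕ} (f : ℝ → Vec d) : ℝ≥0∞ :=
  limsup (fun t => ‖f t‖ₑ) (atTop ⊓ ae volume)

/-- `K` is admissible: `limsup |u'| ≤ K ess limsup |f|` for every locally integrable `f` on
`[0, ∞)` with finite essential limit superior and every solution. -/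
def VelocityBound {d : ℕ} (A : Matrix (Fin d) (Fin d) ℝ) (c K : ℝ) : Prop :=
  ∀ f u v : ℝ → Vec d, LocallyIntegrableOn f (Ici 0) → essLimsup f < ⊤ → IsSolution A c f u v →
    limsup (fun t => ‖v t‖ₑ) atTop ≤ ENNReal.ofReal K * essLimsup f

/-- The optimal constant `K(A, c)`. -/
noncomputable def velConst {d : ℕ} (A : Matrix (Fin d) (Fin d) ℝ) (c : ℝ) : ℝ :=
  sInf {K : ℝ | 0 ≤ K ∧ VelocityBound A c K}

/-- `M_d = sup_A c K(A, c)` over symmetric positive definite `A`. -/
noncomputable def supConst (d : ℕ) (c : ℝ) : ℝ :=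
  sSup {x : ℝ | ∃ A : Matrix (Fin d) (Fin d) ℝ, A.PosDef ∧ x = c * velConst A c}

/-- `L_d = sup_A liminf_{c → ∞} c K(A, c)` over symmetric positive definite `A`. -/
noncomputable def limConst (d : ℕ) : ℝ :=
  sSup {x : ℝ | ∃ A : Matrix (Fin d) (Fin d) ℝ, A.PosDef ∧
    x = liminf (fun c : ℝ => c * velConst A c) atTop}

end Pool.Agent.Q177.Osc
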