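import Mathlib

/-!
Scalar velocity kernels for `u'' + u' + λ u = δ`: the excess of `|g|` over `e^{-s}` has integral
at most one.
-/

namespace Pool.Agent.Q177.Osc

open MeasureTheory Set Real Filter
open scoped Topology

/-- the excess of `|g|` over `e^{-s}` -/
noncomputable def exc (g : ℝ → ℝ) (s : ℝ) : ℝ := max (|g s| - Real.exp (-s)) 0

lemma exc_nonneg (g : ℝ → ℝ) (s : ℝ) : 0 ≤ exc g s := le_max_right _ _

lemma exc_continuous {g : ℝ → ℝ} (hg : Continuous g) : Continuous (exc g) := by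
  unfold exc; fun_prop

lemma exc_le_abs (g : ℝ → ℝ) (s : ℝ) : exc g s ≤ |g s| :=
  max_le (by linarith [Real.exp_pos (-s)]) (abs_nonneg _)

/-- if `g ≤ e^{-s}` then the excess is at most `e^{-s} - g`. -/
lemma exc_le_sub {g : ℝ → ℝ} {s : ℝ} (h : g s ≤ Real.exp (-s)) :
    exc g s ≤ Real.exp (-s) - g s := by
  have := Real.exp_pos (-s)
  refine max_le ?_ (by linarith)
  rcases abs_cases (g s) with ⟨h1, _⟩ | ⟨h1, _⟩ <;> rw [h1] <;> linarith

/-- if `g ≤ e^{-s}` then the excess is at most the negative part of `g`. -/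
lemma exc_le_neg {g : ℝ → ℝ} {s : ℝ} (h : g s ≤ Real.exp (-s)) :
    exc g s ≤ max (-g s) 0 := by
  have := Real.exp_pos (-s)
  refine max_le ?_ (le_max_right _ _)
  rcases abs_cases (g s) with ⟨h1, _⟩ | ⟨h1, _⟩ <;> rw [h1]
  · exact le_trans (by linarith) (le_max_right _ _)
  · exact le_trans (by linarith) (le_max_left _ _)

/-- A quadratic bound. -/
lemma exc_le_sq (g : ℝ → ℝ) (s : ℝ) : exc g s ≤ g s ^ 2 * Real.exp s / 4 := by
  have h1 := Real.exp_pos s
  have h2 := Real.exp_pos (-s)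
  have h3 : Real.exp s * Real.exp (-s) = 1 := by rw [← Real.exp_add]; simp
  refine max_le ?_ (by positivity)
  have h4 : g s ^ 2 = |g s| ^ 2 := (sq_abs _).symm
  rw [h4]
  nlinarith [sq_nonneg (|g s| * Real.exp s - 2), mul_pos h1 h1]

/-- Nonnegative continuous functions with uniformly bounded interval integrals. -/
lemma of_interval_bound {h : ℝ → ℝ} (hc : Continuous h) (h0 : ∀ s, 0 ≤ h s) {C : ℝ}
    (hT : ∀ T, 0 ≤ T → ∫ s in (0 : ℝ)..T, h s ≤ C) :
    IntegrableOn h (Ioi 0) ∧ ∫ s in Ioi (0 : ℝ), h s ≤ C := by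
  have hint : IntegrableOn h (Ioi 0) := by
    refine integrableOn_Ioi_of_intervalIntegral_norm_bounded C 0
      (fun i : ℝ => (hc.integrableOn_Icc).mono_set Ioc_subset_Icc_self) tendsto_id ?_
    filter_upwards [eventually_ge_atTop (0 : ℝ)] with T hT0
    simp_rw [Real.norm_of_nonneg (h0 _)]
    exact hT T hT0
  refine ⟨hint, ?_⟩
  refine le_of_tendsto (intervalIntegral_tendsto_integral_Ioi 0 hint tendsto_id) ?_
  filter_upwards [eventually_ge_atTop (0 : ℝ)] with T hT0
  exact hT T hT0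

/-- `U, g` is the fundamental pair for `u'' + u' + λ u = 0`. -/
structure Fund (lam : ℝ) (U g : ℝ → ℝ) : Prop where
  hU : ∀ s, HasDerivAt U (g s) s
  hg : ∀ s, HasDerivAt g (-g s - lam * U s) s
  U0 : U 0 = 0
  g0 : g 0 = 1
  Ulim : Tendsto U atTop (𝓝 0)
  glim : Tendsto g atTop (𝓝 0)

namespace Fund

variable {lam : ℝ} {U g : ℝ → ℝ}

lemma g_cont (h : Fund lam U g) : Continuous g :=
  continuous_iff_continuousAt.mpr fun s => (h.hg s).continuousAt

lemma U_cont (h : Fund lam U g) : Continuous U :=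
  continuous_iff_continuousAt.mpr fun s => (h.hU s).continuousAt

/-- while `U ≥ 0`, one has `g ≤ e^{-s}`. -/
lemma g_le (h : Fund lam U g) (hlam : 0 < lam) {S : ℝ} (hS : ∀ s ∈ Icc 0 S, 0 ≤ U s) :
    ∀ s ∈ Icc 0 S, g s ≤ Real.exp (-s) := by
  intro s hs
  have hd : ∀ t, HasDerivAt (fun t => g t * Real.exp t)
      ((-g t - lam * U t) * Real.exp t + g t * Real.exp t) t := fun t =>
    (h.hg t).mul (Real.hasDerivAt_exp t)
  have hanti : AntitoneOn (fun t => g t * Real.exp t) (Icc 0 S) := by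
    refine antitoneOn_of_deriv_nonpos (convex_Icc 0 S)
      (fun t _ => (hd t).continuousAt.continuousWithinAt)
      (fun t _ => (hd t).differentiableAt.differentiableWithinAt) fun t ht => ?_
    rw [interior_Icc] at ht
    rw [(hd t).deriv]
    have h1 := hS t (Ioo_subset_Icc_self ht)
    have h2 := Real.exp_pos t
    have h3 : (-g t - lam * U t) * Real.exp t + g t * Real.exp t
        = -(lam * U t * Real.exp t) := by ring
    rw [h3]
    have : 0 ≤ lam * U t * Real.exp t := by positivity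
    linarith
  have h1 : g s * Real.exp s ≤ g 0 * Real.exp 0 :=
    hanti ⟨le_refl _, hs.1.trans hs.2⟩ hs hs.1
  rw [h.g0, Real.exp_zero, one_mul] at h1
  rw [Real.exp_neg, ← one_div, le_div_iff₀ (Real.exp_pos s)]
  exact h1

lemma integral_g (h : Fund lam U g) (a b : ℝ) : ∫ s in a..b, g s = U b - U a :=
  intervalIntegral.integral_eq_sub_of_hasDerivAt (fun s _ => h.hU s)
    (h.g_cont.intervalIntegrable _ _)

/-- overdamped case: `U ≥ 0` on the half line -/
theorem exc_bound_of_nonneg (h : Fund lam U g) (hlam : 0 < lam) (hU : ∀ s, 0 ≤ s → 0 ≤ U s) :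
    IntegrableOn (exc g) (Ioi 0) ∧ ∫ s in Ioi (0 : ℝ), exc g s ≤ 1 := by
  refine of_interval_bound (exc_continuous h.g_cont) (exc_nonneg g) fun T hT => ?_
  have h1 : ∫ s in (0 : ℝ)..T, exc g s ≤ ∫ s in (0 : ℝ)..T, (Real.exp (-s) - g s) := by
    refine intervalIntegral.integral_mono_on hT
      ((exc_continuous h.g_cont).intervalIntegrable _ _) ?_ fun s hs => ?_
    · have := h.g_cont
      exact (by fun_prop : Continuous fun s => Real.exp (-s) - g s).intervalIntegrable _ _
    · exact exc_le_sub (h.g_le hlam (fun t ht => hU t ht.1) s hs)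
  refine h1.trans ?_
  have hg := h.g_cont
  rw [intervalIntegral.integral_sub
    ((by fun_prop : Continuous fun s : ℝ => Real.exp (-s)).intervalIntegrable _ _)
    (hg.intervalIntegrable _ _), h.integral_g, h.U0]
  have h2 : ∫ s in (0 : ℝ)..T, Real.exp (-s) = 1 - Real.exp (-T) := by
    rw [intervalIntegral.integral_comp_neg (fun s => Real.exp s), integral_exp]
    simp
  rw [h2]
  have := Real.exp_pos (-T)
  have := hU T hT
  linarith

end Fund

end Pool.Agent.Q177.Osc
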