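import Mathlib
import Pool.Agent.Q177.Osc.Kernel

/-!
Explicit fundamental pairs.
-/

namespace Pool.Agent.Q177.Osc

open MeasureTheory Set Real Filter
open scoped Topology

lemma hasDerivAt_exp_mul (r s : ℝ) :
    HasDerivAt (fun s : ℝ => Real.exp (-r * s)) (-r * Real.exp (-r * s)) s := by
  have := ((hasDerivAt_id s).const_mul (-r)).exp
  simp only [id] at this
  refine this.congr_deriv ?_
  ring

lemma tendsto_exp_neg_mul {r : ℝ} (hr : 0 < r) :
    Tendsto (fun s : ℝ => Real.exp (-r * s)) atTop (𝓝 0) := by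
  have h : Tendsto (fun s : ℝ => r * s) atTop atTop := tendsto_id.const_mul_atTop hr
  have := Real.tendsto_exp_neg_atTop_nhds_zero.comp h
  refine this.congr fun s => ?_
  simp [Function.comp]

/-- overdamped -/
lemma fund_over {lam : ℝ} (h0 : 0 < lam) (h1 : lam < 1 / 4) :
    ∃ U g : ℝ → ℝ, Fund lam U g ∧ ∀ s, 0 ≤ s → 0 ≤ U s := by
  set δ : ℝ := √(1 - 4 * lam) with hδ
  have hδ2 : δ ^ 2 = 1 - 4 * lam := Real.sq_sqrt (by linarith)
  have hδ0 : 0 < δ := Real.sqrt_pos.mpr (by linarith)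
  have hδ1 : δ < 1 := by nlinarith
  set p : ℝ := (1 + δ) / 2 with hp
  set m : ℝ := (1 - δ) / 2 with hm
  have hp0 : 0 < p := by positivity
  have hm0 : 0 < m := by rw [hm]; linarith
  have hmp : m < p := by rw [hm, hp]; linarith
  have hpp : p ^ 2 = p - lam := by rw [hp]; nlinarith
  have hmm : m ^ 2 = m - lam := by rw [hm]; nlinarith
  refine ⟨fun s => (Real.exp (-m * s) - Real.exp (-p * s)) / δ,
    fun s => (p * Real.exp (-p * s) - m * Real.exp (-m * s)) / δ,
    ⟨fun s => ?_, fun s => ?_, ?_, ?_, ?_, ?_⟩, ?_⟩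
  · refine (((hasDerivAt_exp_mul m s).sub (hasDerivAt_exp_mul p s)).div_const δ).congr_deriv ?_
    ring
  · refine ((((hasDerivAt_exp_mul p s).const_mul p).sub
      ((hasDerivAt_exp_mul m s).const_mul m)).div_const δ).congr_deriv ?_
    generalize Real.exp (-p * s) = a
    generalize Real.exp (-m * s) = b
    field_simp
    linear_combination (-a) * hpp + b * hmm
  · simp
  · have : p - m = δ := by rw [hp, hm]; ring
    simp [this, hδ0.ne']
  · have := ((tendsto_exp_neg_mul hm0).sub (tendsto_exp_neg_mul hp0)).div_const δ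
    simpa using this
  · have := (((tendsto_exp_neg_mul hp0).const_mul p).sub
      ((tendsto_exp_neg_mul hm0).const_mul m)).div_const δ
    simpa using this
  · intro s hs
    have : Real.exp (-p * s) ≤ Real.exp (-m * s) := by
      apply Real.exp_le_exp.mpr
      nlinarith
    have h2 : 0 ≤ Real.exp (-m * s) - Real.exp (-p * s) := by linarith
    positivity

lemma tendsto_mul_exp_half : Tendsto (fun s : ℝ => s * Real.exp (-(1 / 2) * s)) atTop (𝓝 0) := by
  have h := Real.tendsto_pow_mul_exp_neg_atTop_nhds_zero 1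
  have h2 : Tendsto (fun s : ℝ => s / 2) atTop atTop := tendsto_id.atTop_div_const (by norm_num)
  have h3 := (h.comp h2).const_mul 2
  rw [mul_zero] at h3
  refine h3.congr fun s => ?_
  simp only [Function.comp, pow_one]
  rw [show -(1 / 2) * s = -(s / 2) by ring]
  ring

/-- critically damped -/
lemma fund_crit : ∃ U g : ℝ → ℝ, Fund (1 / 4) U g ∧ ∀ s, 0 ≤ s → 0 ≤ U s := by
  refine ⟨fun s => s * Real.exp (-(1 / 2) * s), fun s => (1 - s / 2) * Real.exp (-(1 / 2) * s),
    ⟨fun s => ?_, fun s => ?_, ?_, ?_, ?_, ?_⟩, ?_⟩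
  · refine ((hasDerivAt_id s).mul (hasDerivAt_exp_mul (1 / 2) s)).congr_deriv ?_
    simp only [id]
    ring
  · refine ((((hasDerivAt_id s).div_const 2).const_sub 1).mul
      (hasDerivAt_exp_mul (1 / 2) s)).congr_deriv ?_
    simp only [id]
    ring
  · simp
  · simp
  · exact tendsto_mul_exp_half
  · have := (tendsto_exp_neg_mul (show (0 : ℝ) < 1 / 2 by norm_num)).sub
      (tendsto_mul_exp_half.div_const 2)
    simp only [zero_div, sub_zero] at this
    refine this.congr fun s => ?_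
    ring
  · intro s hs
    positivity

/-! ### Underdamped pair -/

noncomputable def Uu (β : ℝ) (s : ℝ) : ℝ := Real.exp (-(1 / 2) * s) * (Real.sin (β * s) / β)
noncomputable def wu (β : ℝ) (s : ℝ) : ℝ := Real.cos (β * s) - 1 / (2 * β) * Real.sin (β * s)
noncomputable def vu (β : ℝ) (s : ℝ) : ℝ := Real.sin (β * s) + 1 / (2 * β) * Real.cos (β * s)
noncomputable def gu (β : ℝ) (s : ℝ) : ℝ := Real.exp (-(1 / 2) * s) * wu β s

lemma hasDerivAt_sin_mul (β s : ℝ) :
    HasDerivAt (fun s : ℝ => Real.sin (β * s)) (β * Real.cos (β * s)) s := by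
  have := ((hasDerivAt_id s).const_mul β).sin
  simp only [id] at this
  refine this.congr_deriv ?_
  ring

lemma hasDerivAt_cos_mul (β s : ℝ) :
    HasDerivAt (fun s : ℝ => Real.cos (β * s)) (-(β * Real.sin (β * s))) s := by
  have := ((hasDerivAt_id s).const_mul β).cos
  simp only [id] at this
  refine this.congr_deriv ?_
  ring

lemma wu_hasDerivAt {β : ℝ} (hβ : 0 < β) (s : ℝ) : HasDerivAt (wu β) (-(β * vu β s)) s := by
  refine ((hasDerivAt_cos_mul β s).sub ((hasDerivAt_sin_mul β s).const_mul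
    (1 / (2 * β)))).congr_deriv ?_
  simp only [vu]
  field_simp
  ring

lemma vu_hasDerivAt {β : ℝ} (hβ : 0 < β) (s : ℝ) : HasDerivAt (vu β) (β * wu β s) s := by
  refine ((hasDerivAt_sin_mul β s).add ((hasDerivAt_cos_mul β s).const_mul
    (1 / (2 * β)))).congr_deriv ?_
  simp only [wu]
  field_simp
  ring

lemma wv_sq {β : ℝ} (s : ℝ) : wu β s ^ 2 + vu β s ^ 2 = 1 + (1 / (2 * β)) ^ 2 := by
  have := Real.sin_sq_add_cos_sq (β * s)
  simp only [wu, vu]
  linear_combination (1 + (1 / (2 * β)) ^ 2) * this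

lemma abs_wu_le (β s : ℝ) : |wu β s| ≤ √(1 + (1 / (2 * β)) ^ 2) := by
  apply Real.abs_le_sqrt
  have := @wv_sq β s
  nlinarith [sq_nonneg (vu β s)]

lemma fund_under {β : ℝ} (hβ : 0 < β) : Fund (β ^ 2 + 1 / 4) (Uu β) (gu β) := by
  refine ⟨fun s => ?_, fun s => ?_, ?_, ?_, ?_, ?_⟩
  · refine ((hasDerivAt_exp_mul (1 / 2) s).mul
      ((hasDerivAt_sin_mul β s).div_const β)).congr_deriv ?_
    simp only [gu, wu]
    field_simp
    ring
  · refine ((hasDerivAt_exp_mul (1 / 2) s).mul (wu_hasDerivAt hβ s)).congr_deriv ?_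
    simp only [gu, wu, Uu, vu]
    field_simp
    ring
  · simp [Uu]
  · simp [gu, wu]
  · have h := tendsto_exp_neg_mul (show (0 : ℝ) < 1 / 2 by norm_num)
    have h2 : Tendsto (fun s : ℝ => Real.exp (-(1 / 2) * s) * (1 / β)) atTop (𝓝 0) := by
      simpa using h.mul_const (1 / β)
    refine squeeze_zero_norm (fun s => ?_) h2
    rw [Uu, norm_mul, Real.norm_eq_abs, abs_of_pos (Real.exp_pos _)]
    apply mul_le_mul_of_nonneg_left _ (Real.exp_pos _).le
    rw [Real.norm_eq_abs, abs_div, abs_of_pos hβ]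
    exact div_le_div_of_nonneg_right (Real.abs_sin_le_one _) hβ.le
  · have h := tendsto_exp_neg_mul (show (0 : ℝ) < 1 / 2 by norm_num)
    have h2 : Tendsto (fun s : ℝ => Real.exp (-(1 / 2) * s) * √(1 + (1 / (2 * β)) ^ 2)) atTop
        (𝓝 0) := by
      simpa using h.mul_const (√(1 + (1 / (2 * β)) ^ 2))
    refine squeeze_zero_norm (fun s => ?_) h2
    rw [gu, norm_mul, Real.norm_eq_abs, abs_of_pos (Real.exp_pos _)]
    apply mul_le_mul_of_nonneg_left _ (Real.exp_pos _).le
    rw [Real.norm_eq_abs]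
    exact abs_wu_le β s

end Pool.Agent.Q177.Osc
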