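import Mathlib
import Pool.Agent.Q177.Osc.Over

/-!
The underdamped kernels.
-/

namespace Pool.Agent.Q177.Osc

open MeasureTheory Set Real Filter
open scoped Topology

lemma gu_cont {β : ℝ} (hβ : 0 < β) : Continuous (gu β) := (fund_under hβ).g_cont

lemma wu_cont {β : ℝ} (hβ : 0 < β) : Continuous (wu β) :=
  continuous_iff_continuousAt.mpr fun s => (wu_hasDerivAt hβ s).continuousAt

/-- amplitude -/
noncomputable def amp (β : ℝ) : ℝ := √(1 + (1 / (2 * β)) ^ 2)

lemma amp_sq (β : ℝ) : amp β ^ 2 = 1 + (1 / (2 * β)) ^ 2 := Real.sq_sqrt (by positivity)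

lemma amp_nonneg (β : ℝ) : 0 ≤ amp β := Real.sqrt_nonneg _

lemma abs_gu_le (β s : ℝ) : |gu β s| ≤ amp β * Real.exp (-(1 / 2) * s) := by
  rw [gu, abs_mul, abs_of_pos (Real.exp_pos _), mul_comm]
  exact mul_le_mul_of_nonneg_right (abs_wu_le β s) (Real.exp_pos _).le

lemma integrableOn_exp_half (a : ℝ) :
    IntegrableOn (fun s : ℝ => Real.exp (-(1 / 2) * s)) (Ioi a) :=
  integrableOn_exp_mul_Ioi (by norm_num) a

lemma integral_exp_half (a : ℝ) :
    ∫ s in Ioi a, Real.exp (-(1 / 2) * s) = 2 * Real.exp (-(1 / 2) * a) := by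
  rw [integral_exp_mul_Ioi (by norm_num)]
  ring

lemma integrableOn_abs_gu {β : ℝ} (hβ : 0 < β) (a : ℝ) :
    IntegrableOn (fun s => |gu β s|) (Ioi a) := by
  refine Integrable.mono' ((integrableOn_exp_half a).const_mul (amp β))
    (gu_cont hβ).abs.aestronglyMeasurable (Eventually.of_forall fun s => ?_)
  rw [Real.norm_eq_abs, abs_abs]
  exact abs_gu_le β s

lemma integrableOn_exc {β : ℝ} (hβ : 0 < β) (a : ℝ) : IntegrableOn (exc (gu β)) (Ioi a) := by
  refine Integrable.mono' (integrableOn_abs_gu hβ a)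
    (exc_continuous (gu_cont hβ)).aestronglyMeasurable (Eventually.of_forall fun s => ?_)
  rw [Real.norm_of_nonneg (exc_nonneg _ _)]
  exact exc_le_abs _ _

lemma integral_abs_gu_tail {β : ℝ} (hβ : 0 < β) (a : ℝ) :
    ∫ s in Ioi a, |gu β s| ≤ amp β * (2 * Real.exp (-(1 / 2) * a)) := by
  rw [← integral_exp_half, ← integral_const_mul]
  exact setIntegral_mono_on (integrableOn_abs_gu hβ a) ((integrableOn_exp_half a).const_mul _)
    measurableSet_Ioi fun s _ => abs_gu_le β s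

/-- integral of `w²` -/
lemma integral_wu_sq {β : ℝ} (hβ : 0 < β) (a b : ℝ) :
    ∫ s in a..b, wu β s ^ 2 = amp β ^ 2 * (b - a) / 2
      + (wu β b * vu β b - wu β a * vu β a) / (2 * β) := by
  have h : ∀ s, HasDerivAt (fun s => amp β ^ 2 * s / 2 + wu β s * vu β s / (2 * β))
      (wu β s ^ 2) s := by
    intro s
    refine ((((hasDerivAt_id s).const_mul (amp β ^ 2)).div_const 2).add
      (((wu_hasDerivAt hβ s).mul (vu_hasDerivAt hβ s)).div_const (2 * β))).congr_deriv ?_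
    have := @wv_sq β s
    rw [← amp_sq] at this
    field_simp
    linear_combination -this
  have hc := wu_cont hβ
  rw [intervalIntegral.integral_eq_sub_of_hasDerivAt (fun s _ => h s)
    ((by fun_prop : Continuous fun s => wu β s ^ 2).intervalIntegrable _ _)]
  ring

lemma abs_wv_le (β s : ℝ) : |wu β s * vu β s| ≤ amp β ^ 2 / 2 := by
  have h := @wv_sq β s
  rw [← amp_sq] at h
  rw [abs_le]
  constructor <;> nlinarith [sq_nonneg (wu β s + vu β s), sq_nonneg (wu β s - vu β s)]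

/-- quadratic estimate of the excess integral -/
lemma quad_bound {β T0 : ℝ} (hβ : 0 < β) (hT0 : 0 ≤ T0) (hT4 : T0 ≤ 4)
    (hz : ∀ s ∈ Icc 0 T0, exc (gu β) s = 0) :
    ∫ s in Ioi (0 : ℝ), exc (gu β) s ≤
      (amp β ^ 2 * (4 - T0) / 2 + (wu β 4 * vu β 4 - wu β T0 * vu β T0) / (2 * β)) / 4
        + amp β * (2 * Real.exp (-2)) := by
  have hc := exc_continuous (gu_cont hβ)
  have h1 : ∫ s in Ioi (0 : ℝ), exc (gu β) s
      = (∫ s in (0 : ℝ)..T0, exc (gu β) s) + (∫ s in T0..4, exc (gu β) s)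
        + ∫ s in Ioi (4 : ℝ), exc (gu β) s := by
    rw [intervalIntegral.integral_add_adjacent_intervals (hc.intervalIntegrable _ _)
      (hc.intervalIntegrable _ _)]
    exact (intervalIntegral.integral_interval_add_Ioi (integrableOn_exc hβ 0)
      (integrableOn_exc hβ 4)).symm
  have h2 : ∫ s in (0 : ℝ)..T0, exc (gu β) s = 0 := by
    rw [intervalIntegral.integral_congr (g := fun _ => (0 : ℝ))]
    · simp
    · intro s hs
      rw [uIcc_of_le hT0] at hs
      exact hz s hs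
  have h3 : ∫ s in T0..4, exc (gu β) s ≤ (∫ s in T0..4, wu β s ^ 2) / 4 := by
    rw [← intervalIntegral.integral_div]
    have hw := wu_cont hβ
    refine intervalIntegral.integral_mono_on hT4 (hc.intervalIntegrable _ _)
      ((by fun_prop : Continuous fun s => wu β s ^ 2 / 4).intervalIntegrable _ _) fun s _ => ?_
    refine (exc_le_sq _ _).trans (le_of_eq ?_)
    rw [gu, mul_pow, ← Real.exp_nat_mul]
    have : Real.exp ((2 : ℕ) * (-(1 / 2) * s)) * Real.exp s = 1 := by
      rw [← Real.exp_add]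
      rw [show ((2 : ℕ) : ℝ) * (-(1 / 2) * s) + s = 0 by push_cast; ring, Real.exp_zero]
    linear_combination (wu β s ^ 2 / 4) * this
  have h4 : ∫ s in Ioi (4 : ℝ), exc (gu β) s ≤ amp β * (2 * Real.exp (-2)) := by
    have h5 := integral_abs_gu_tail hβ 4
    rw [show -(1 / 2 : ℝ) * 4 = -2 by norm_num] at h5
    refine le_trans ?_ h5
    exact setIntegral_mono_on (integrableOn_exc hβ 4) (integrableOn_abs_gu hβ 4)
      measurableSet_Ioi fun s _ => exc_le_abs _ _
  rw [integral_wu_sq hβ] at h3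
  rw [h1, h2, zero_add]
  linarith

lemma exp_neg_two_lt : Real.exp (-2) < 0.1354 := by
  have h1 := Real.exp_one_gt_d9
  have h2 : Real.exp (-2) = (Real.exp 1 ^ 2)⁻¹ := by
    rw [← Real.exp_nat_mul, ← Real.exp_neg]; norm_num
  rw [h2, inv_lt_comm₀ (by positivity) (by norm_num)]
  nlinarith

/-- `U ≥ 0` on the first half period -/
lemma Uu_nonneg {β : ℝ} (hβ : 0 < β) {s : ℝ} (hs0 : 0 ≤ s) (hs : β * s ≤ π) : 0 ≤ Uu β s := by
  have := Real.sin_nonneg_of_nonneg_of_le_pi (mul_nonneg hβ.le hs0) hs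
  unfold Uu
  positivity

/-- for `s ≤ 1`, `β ≤ 3/2` the excess vanishes -/
lemma exc_zero {β : ℝ} (hβ : 0 < β) (hβ' : β ≤ 3 / 2) {s : ℝ} (hs : s ∈ Icc (0 : ℝ) 1) :
    exc (gu β) s = 0 := by
  have hpi := Real.pi_gt_three
  have hbs : β * s ≤ 3 / 2 := by nlinarith [hs.1, hs.2]
  have hbs0 : 0 ≤ β * s := mul_nonneg hβ.le hs.1
  have h1 : gu β s ≤ Real.exp (-s) := by
    refine (fund_under hβ).g_le (by positivity) (S := 1) (fun t ht => ?_) s hs
    refine Uu_nonneg hβ ht.1 ?_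
    nlinarith [ht.1, ht.2]
  have h2 : -gu β s ≤ Real.exp (-s) := by
    have hcos : 0 ≤ Real.cos (β * s) :=
      Real.cos_nonneg_of_mem_Icc ⟨by linarith, by linarith⟩
    have hsin : Real.sin (β * s) ≤ β * s := Real.sin_le hbs0
    have h3 : -wu β s ≤ s / 2 := by
      have : 1 / (2 * β) * Real.sin (β * s) ≤ 1 / (2 * β) * (β * s) :=
        mul_le_mul_of_nonneg_left hsin (by positivity)
      have h4 : 1 / (2 * β) * (β * s) = s / 2 := by field_simp
      unfold wu
      linarith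
    have h5 : s / 2 ≤ Real.exp (-(1 / 2) * s) := by
      have := Real.add_one_le_exp (-(1 / 2) * s)
      linarith [hs.2]
    have h6 : Real.exp (-s) = Real.exp (-(1 / 2) * s) * Real.exp (-(1 / 2) * s) := by
      rw [← Real.exp_add]; congr 1; ring
    rw [h6, gu]
    have h7 := Real.exp_pos (-(1 / 2) * s)
    nlinarith
  have h3 : |gu β s| ≤ Real.exp (-s) := abs_le.mpr ⟨by linarith, h1⟩
  exact max_eq_right (by linarith)

/-- the case `β ≥ 3/2` -/
lemma bound_large {β : ℝ} (hβ : 3 / 2 ≤ β) : ∫ s in Ioi (0 : ℝ), exc (gu β) s ≤ 1 := by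
  have hβ0 : 0 < β := by linarith
  have hz : ∀ s ∈ Icc (0 : ℝ) 0, exc (gu β) s = 0 := by
    intro s hs
    have : s = 0 := le_antisymm hs.2 hs.1
    rw [this, exc, (fund_under hβ0).g0]
    simp
  have h := quad_bound hβ0 le_rfl (by norm_num) hz
  have hk : 1 / (2 * β) ≤ 1 / 3 := by
    apply one_div_le_one_div_of_le (by norm_num); linarith
  have hk0 : 0 ≤ 1 / (2 * β) := by positivity
  have hq : amp β ^ 2 ≤ 10 / 9 := by rw [amp_sq]; nlinarith
  have ha : amp β ≤ 1.0542 := by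
    have := amp_nonneg β
    by_contra hc
    push Not at hc
    nlinarith
  have h0 : 0 ≤ wu β 0 * vu β 0 := by simp [wu, vu]; positivity
  have h1 := (abs_le.mp (abs_wv_le β 4)).2
  have h2 : (wu β 4 * vu β 4 - wu β 0 * vu β 0) / (2 * β) ≤ (10 / 9 / 2) * (1 / 3) := by
    rw [div_eq_mul_one_div]
    have : wu β 4 * vu β 4 - wu β 0 * vu β 0 ≤ 10 / 9 / 2 := by linarith
    calc _ ≤ (10 / 9 / 2) * (1 / (2 * β)) := mul_le_mul_of_nonneg_right this hk0
      _ ≤ _ := mul_le_mul_of_nonneg_left hk (by norm_num)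
  have h3 := exp_neg_two_lt
  have h4 := Real.exp_pos (-2)
  have h5 : amp β * (2 * Real.exp (-2)) ≤ 1.0542 * (2 * 0.1354) := by
    apply mul_le_mul ha (by linarith) (by positivity) (by norm_num)
  nlinarith

/-- the case `1 ≤ β ≤ 3/2` -/
lemma bound_mid {β : ℝ} (hβ : 1 ≤ β) (hβ' : β ≤ 3 / 2) :
    ∫ s in Ioi (0 : ℝ), exc (gu β) s ≤ 1 := by
  have hβ0 : 0 < β := by linarith
  have h := quad_bound hβ0 zero_le_one (by norm_num) fun s hs => exc_zero hβ0 hβ' hs
  have hk : 1 / (2 * β) ≤ 1 / 2 := by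
    apply one_div_le_one_div_of_le (by norm_num); linarith
  have hk0 : 0 ≤ 1 / (2 * β) := by positivity
  have hq : amp β ^ 2 ≤ 5 / 4 := by rw [amp_sq]; nlinarith
  have ha : amp β ≤ 1.1181 := by
    have := amp_nonneg β
    by_contra hc
    push Not at hc
    nlinarith
  have h0 := (abs_le.mp (abs_wv_le β 1)).1
  have h1 := (abs_le.mp (abs_wv_le β 4)).2
  have h2 : (wu β 4 * vu β 4 - wu β 1 * vu β 1) / (2 * β) ≤ (5 / 4) * (1 / 2) := by
    rw [div_eq_mul_one_div]
    have : wu β 4 * vu β 4 - wu β 1 * vu β 1 ≤ 5 / 4 := by linarith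
    calc _ ≤ (5 / 4) * (1 / (2 * β)) := mul_le_mul_of_nonneg_right this hk0
      _ ≤ _ := mul_le_mul_of_nonneg_left hk (by norm_num)
  have h3 := exp_neg_two_lt
  have h4 := Real.exp_pos (-2)
  have h5 : amp β * (2 * Real.exp (-2)) ≤ 1.1181 * (2 * 0.1354) := by
    apply mul_le_mul ha (by linarith) (by positivity) (by norm_num)
  nlinarith

/-- the case `4/5 ≤ β ≤ 1` -/
lemma bound_low {β : ℝ} (hβ : 4 / 5 ≤ β) (hβ' : β ≤ 1) :
    ∫ s in Ioi (0 : ℝ), exc (gu β) s ≤ 1 := by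
  have hβ0 : 0 < β := by linarith
  have hpi := Real.pi_gt_three
  have h := quad_bound hβ0 zero_le_one (by norm_num) fun s hs => exc_zero hβ0 (by linarith) hs
  have hk : 1 / (2 * β) ≤ 5 / 8 := by
    rw [div_le_div_iff₀ (by positivity) (by norm_num)]; linarith
  have hk0 : 0 ≤ 1 / (2 * β) := by positivity
  have hq : amp β ^ 2 ≤ 89 / 64 := by rw [amp_sq]; nlinarith
  have ha : amp β ≤ 1.1793 := by
    have := amp_nonneg β
    by_contra hc
    push Not at hc
    nlinarith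
  have hcos : 1 / 2 ≤ Real.cos β := by
    have := Real.one_sub_sq_div_two_le_cos (x := β)
    nlinarith
  have hsin0 : 0 ≤ Real.sin β := Real.sin_nonneg_of_nonneg_of_le_pi hβ0.le (by linarith)
  have hsin1 : Real.sin β ≤ β := Real.sin_le hβ0.le
  have hw : 0 ≤ wu β 1 := by
    have h1 : 1 / (2 * β) * Real.sin β ≤ 1 / (2 * β) * β := mul_le_mul_of_nonneg_left hsin1 hk0
    have h2 : 1 / (2 * β) * β = 1 / 2 := by field_simp
    simp only [wu, mul_one]
    linarith
  have hv : 0 ≤ vu β 1 := by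
    simp only [vu, mul_one]
    have : 0 ≤ 1 / (2 * β) * Real.cos β := mul_nonneg hk0 (by linarith)
    linarith
  have h0 := mul_nonneg hw hv
  have h1 := (abs_le.mp (abs_wv_le β 4)).2
  have h2 : (wu β 4 * vu β 4 - wu β 1 * vu β 1) / (2 * β) ≤ (89 / 128) * (5 / 8) := by
    rw [div_eq_mul_one_div]
    have : wu β 4 * vu β 4 - wu β 1 * vu β 1 ≤ 89 / 128 := by linarith
    calc _ ≤ (89 / 128) * (1 / (2 * β)) := mul_le_mul_of_nonneg_right this hk0
      _ ≤ _ := mul_le_mul_of_nonneg_left hk (by norm_num)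
  have h3 := exp_neg_two_lt
  have h4 := Real.exp_pos (-2)
  have h5 : amp β * (2 * Real.exp (-2)) ≤ 1.1793 * (2 * 0.1354) := by
    apply mul_le_mul ha (by linarith) (by positivity) (by norm_num)
  nlinarith

end Pool.Agent.Q177.Osc
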