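import Mathlib
import Pool.Agent.Q177.Osc.Under

/-!
The weakly underdamped kernels and the uniform bound.
-/

namespace Pool.Agent.Q177.Osc

open MeasureTheory Set Real Filter
open scoped Topology

/-- phase form of `w` -/
lemma wu_eq (β s : ℝ) : wu β s = amp β * Real.cos (β * s + Real.arctan (1 / (2 * β))) := by
  have h0 : 0 < amp β := Real.sqrt_pos.mpr (by positivity)
  rw [Real.cos_add, Real.cos_arctan, Real.sin_arctan]
  have : √(1 + (1 / (2 * β)) ^ 2) = amp β := rfl
  rw [this, wu]
  field_simp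

lemma Uu_le {β s : ℝ} (hβ : 0 < β) (hs : 0 ≤ s) : Uu β s ≤ 2 * Real.exp (-1) := by
  have h1 : Real.sin (β * s) / β ≤ s := by
    rw [div_le_iff₀ hβ]
    linarith [Real.sin_le (mul_nonneg hβ.le hs)]
  have h2 : s / 2 ≤ Real.exp (s / 2 - 1) := by
    have := Real.add_one_le_exp (s / 2 - 1)
    linarith
  have h3 := Real.exp_pos (-(1 / 2) * s)
  calc Uu β s ≤ Real.exp (-(1 / 2) * s) * s := mul_le_mul_of_nonneg_left h1 h3.le
    _ = 2 * (Real.exp (-(1 / 2) * s) * (s / 2)) := by ring
    _ ≤ 2 * (Real.exp (-(1 / 2) * s) * Real.exp (s / 2 - 1)) := by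
        have := mul_le_mul_of_nonneg_left h2 h3.le
        linarith
    _ = 2 * Real.exp (-1) := by
        rw [← Real.exp_add]; congr 2; ring

lemma gu_shift {β : ℝ} (hβ : 0 < β) (s : ℝ) :
    gu β (s + π / β) = -(Real.exp (-(1 / 2) * (π / β)) * gu β s) := by
  have h1 : β * (s + π / β) = β * s + π := by field_simp
  simp only [gu, wu, h1, Real.cos_add_pi, Real.sin_add_pi]
  rw [show -(1 / 2) * (s + π / β) = -(1 / 2) * (π / β) + -(1 / 2) * s by ring, Real.exp_add]
  ring

lemma integral_Ioi_shift (f : ℝ → ℝ) (S : ℝ) :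
    ∫ s in Ioi (0 : ℝ), f (s + S) = ∫ s in Ioi S, f s := by
  have h := (measurePreserving_add_right volume S).setIntegral_preimage_emb
    (measurableEmbedding_addRight S) f (Ioi S)
  rw [← h, Set.preimage_add_const_Ioi, sub_self]

lemma bound_small {β : ℝ} (hβ : 0 < β) (hβ' : β ≤ 4 / 5) :
    ∫ s in Ioi (0 : ℝ), exc (gu β) s ≤ 1 := by
  have hpi := Real.pi_gt_d2
  have hF := fund_under hβ
  have hgc := gu_cont hβ
  set S : ℝ := π / β with hS
  have hS0 : 0 < S := by positivity
  have hbS : β * S = π := by rw [hS]; field_simp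
  set φ : ℝ := Real.arctan (1 / (2 * β)) with hφ
  have hφ0 : 0 < φ := by
    rw [hφ]
    exact Real.arctan_pos.mpr (by positivity)
  have hφ1 : φ < π / 2 := Real.arctan_lt_pi_div_two _
  set s1 : ℝ := (π / 2 - φ) / β with hs1
  have hbs1 : β * s1 = π / 2 - φ := by rw [hs1]; field_simp
  have hs10 : 0 < s1 := div_pos (by linarith) hβ
  have hs1S : s1 < S := by
    have : β * s1 < β * S := by rw [hbs1, hbS]; linarith
    exact lt_of_mul_lt_mul_left this hβ.le
  have hamp : 0 ≤ amp β := amp_nonneg β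
  -- sign of g
  have hgpos : ∀ s ∈ Icc 0 s1, 0 ≤ gu β s := by
    intro s hs
    rw [gu, wu_eq]
    have h1 : β * s ≤ β * s1 := mul_le_mul_of_nonneg_left hs.2 hβ.le
    have h2 : 0 ≤ β * s := mul_nonneg hβ.le hs.1
    have : 0 ≤ Real.cos (β * s + φ) :=
      Real.cos_nonneg_of_mem_Icc ⟨by linarith, by linarith⟩
    have h3 := Real.exp_pos (-(1 / 2) * s)
    positivity
  have hgneg : ∀ s ∈ Icc s1 S, gu β s ≤ 0 := by
    intro s hs
    rw [gu, wu_eq]
    have h1 : β * s1 ≤ β * s := mul_le_mul_of_nonneg_left hs.1 hβ.le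
    have h2 : β * s ≤ β * S := mul_le_mul_of_nonneg_left hs.2 hβ.le
    have : Real.cos (β * s + φ) ≤ 0 :=
      Real.cos_nonpos_of_pi_div_two_le_of_le (by linarith) (by linarith)
    have h3 := Real.exp_pos (-(1 / 2) * s)
    exact mul_nonpos_of_nonneg_of_nonpos h3.le (mul_nonpos_of_nonneg_of_nonpos hamp this)
  -- negative part
  set N : ℝ := ∫ s in (0 : ℝ)..S, max (-gu β s) 0 with hN
  have hnc : Continuous fun s => max (-gu β s) 0 := by fun_prop
  have hNval : N = Uu β s1 := by
    rw [hN, ← intervalIntegral.integral_add_adjacent_intervals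
      (hnc.intervalIntegrable 0 s1) (hnc.intervalIntegrable s1 S)]
    have e1 : ∫ s in (0 : ℝ)..s1, max (-gu β s) 0 = 0 := by
      rw [intervalIntegral.integral_congr (g := fun _ => (0 : ℝ))]
      · simp
      · intro s hs
        rw [uIcc_of_le hs10.le] at hs
        exact max_eq_right (by linarith [hgpos s hs])
    have e2 : ∫ s in s1..S, max (-gu β s) 0 = ∫ s in s1..S, -gu β s := by
      refine intervalIntegral.integral_congr fun s hs => ?_
      rw [uIcc_of_le hs1S.le] at hs
      exact max_eq_left (by linarith [hgneg s hs])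
    rw [e1, e2, intervalIntegral.integral_neg, hF.integral_g]
    have : Uu β S = 0 := by
      rw [Uu, hbS, Real.sin_pi]; simp
    rw [this]
    ring
  have hNle : N ≤ 0.7358 := by
    rw [hNval]
    refine (Uu_le hβ hs10.le).trans ?_
    have h1 := Real.exp_one_gt_d9
    rw [Real.exp_neg, ← div_eq_mul_inv, div_le_iff₀ (by linarith)]
    linarith
  have hN0 : 0 ≤ N := by
    rw [hN]
    exact intervalIntegral.integral_nonneg hS0.le fun s _ => le_max_right _ _
  set ρ : ℝ := Real.exp (-(1 / 2) * S) with hρ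
  have hρ0 : 0 < ρ := Real.exp_pos _
  have hρ1 : ρ ≤ 0.15 := by
    have h1 : 3.925 ≤ S := by
      rw [hS, le_div_iff₀ hβ]
      nlinarith
    have h2 : ρ ≤ Real.exp (-1.9625) := by
      rw [hρ]
      apply Real.exp_le_exp.mpr
      linarith
    have h3 : Real.exp (-1.9625) = Real.exp (-2) * Real.exp 0.0375 := by
      rw [← Real.exp_add]; norm_num
    have h4 : Real.exp 0.0375 ≤ 1.04 := by
      have h5 := Real.add_one_le_exp (-0.0375 : ℝ)
      have h6 : Real.exp 0.0375 * Real.exp (-0.0375) = 1 := by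
        rw [← Real.exp_add]; norm_num
      have h7 := Real.exp_pos (0.0375 : ℝ)
      nlinarith
    have h5 := exp_neg_two_lt
    have h6 := Real.exp_pos (-2)
    nlinarith
  -- total variation identity
  set K : ℝ := ∫ s in Ioi (0 : ℝ), |gu β s| with hK
  have htail : ∫ s in Ioi S, |gu β s| = ρ * K := by
    have e1 : ∫ s in Ioi (0 : ℝ), |gu β (s + S)| = ∫ s in Ioi S, |gu β s| :=
      integral_Ioi_shift (fun s => |gu β s|) S
    rw [← e1, hK, ← integral_const_mul]
    refine setIntegral_congr_fun measurableSet_Ioi fun s _ => ?_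
    show |gu β (s + S)| = ρ * |gu β s|
    rw [gu_shift hβ, abs_neg, abs_mul, abs_of_pos (Real.exp_pos _)]
  have hhead : ∫ s in (0 : ℝ)..S, |gu β s| = 2 * N := by
    have e1 : ∀ s, |gu β s| = gu β s + 2 * max (-gu β s) 0 := by
      intro s
      rcases le_total 0 (gu β s) with h | h
      · rw [abs_of_nonneg h, max_eq_right (by linarith)]; ring
      · rw [abs_of_nonpos h, max_eq_left (by linarith)]; ring
    simp_rw [e1]
    rw [intervalIntegral.integral_add (hgc.intervalIntegrable _ _)
      ((by fun_prop : Continuous fun s => 2 * max (-gu β s) 0).intervalIntegrable _ _),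
      intervalIntegral.integral_const_mul, hF.integral_g, hF.U0]
    have : Uu β S = 0 := by
      rw [Uu, hbS, Real.sin_pi]; simp
    rw [this, ← hN]
    ring
  have hKeq : K = 2 * N + ρ * K := by
    rw [← htail, ← hhead, hK]
    exact (intervalIntegral.integral_interval_add_Ioi (integrableOn_abs_gu hβ 0)
      (integrableOn_abs_gu hβ S)).symm
  -- excess
  have hc := exc_continuous hgc
  have hsplit : ∫ s in Ioi (0 : ℝ), exc (gu β) s
      = (∫ s in (0 : ℝ)..S, exc (gu β) s) + ∫ s in Ioi S, exc (gu β) s :=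
    (intervalIntegral.integral_interval_add_Ioi (integrableOn_exc hβ 0)
      (integrableOn_exc hβ S)).symm
  have h1 : ∫ s in (0 : ℝ)..S, exc (gu β) s ≤ N := by
    rw [hN]
    refine intervalIntegral.integral_mono_on hS0.le (hc.intervalIntegrable _ _)
      (hnc.intervalIntegrable _ _) fun s hs => exc_le_neg ?_
    refine hF.g_le (by positivity) (S := S) (fun t ht => Uu_nonneg hβ ht.1 ?_) s hs
    rw [← hbS]
    exact mul_le_mul_of_nonneg_left ht.2 hβ.le
  have h2 : ∫ s in Ioi S, exc (gu β) s ≤ ρ * K := by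
    rw [← htail]
    exact setIntegral_mono_on (integrableOn_exc hβ S) (integrableOn_abs_gu hβ S)
      measurableSet_Ioi fun s _ => exc_le_abs _ _
  rw [hsplit]
  have h3 : K * (1 - ρ) = 2 * N := by linarith
  have h4 : K ≤ 2 * N / 0.85 := by
    rw [le_div_iff₀ (by norm_num)]
    have hK0 : 0 ≤ K := by
      rw [hK]; exact setIntegral_nonneg measurableSet_Ioi fun s _ => abs_nonneg _
    nlinarith
  have h5 : ρ * K ≤ 0.15 * (2 * 0.7358 / 0.85) := by
    have hK0 : 0 ≤ K := by
      rw [hK]; exact setIntegral_nonneg measurableSet_Ioi fun s _ => abs_nonneg _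
    have : K ≤ 2 * 0.7358 / 0.85 := h4.trans (by
      apply div_le_div_of_nonneg_right _ (by norm_num); linarith)
    exact mul_le_mul hρ1 this hK0 (by norm_num)
  norm_num at h5
  linarith

/-- **Uniform bound of the excess.** For every `lam > 0` there is a fundamental pair whose
velocity kernel has excess integral at most one. -/
theorem exists_kernel {lam : ℝ} (h : 0 < lam) :
    ∃ U g : ℝ → ℝ, Fund lam U g ∧ IntegrableOn (exc g) (Ioi 0) ∧
      ∫ s in Ioi (0 : ℝ), exc g s ≤ 1 := by
  rcases lt_trichotomy lam (1 / 4) with h1 | h1 | h1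
  · obtain ⟨U, g, hF, hU⟩ := fund_over h h1
    exact ⟨U, g, hF, hF.exc_bound_of_nonneg h hU⟩
  · obtain ⟨U, g, hF, hU⟩ := fund_crit
    subst h1
    exact ⟨U, g, hF, hF.exc_bound_of_nonneg h hU⟩
  · set β : ℝ := √(lam - 1 / 4) with hβ
    have hβ0 : 0 < β := Real.sqrt_pos.mpr (by linarith)
    have hβ2 : β ^ 2 + 1 / 4 = lam := by
      rw [hβ, Real.sq_sqrt (by linarith)]; ring
    refine ⟨Uu β, gu β, hβ2 ▸ fund_under hβ0, integrableOn_exc hβ0 0, ?_⟩
    rcases le_total β (4 / 5) with h2 | h2
    · exact bound_small hβ0 h2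
    · rcases le_total β 1 with h3 | h3
      · exact bound_low h2 h3
      · rcases le_total β (3 / 2) with h4 | h4
        · exact bound_mid h3 h4
        · exact bound_large h4

end Pool.Agent.Q177.Osc
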