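import Mathlib
import Pool.Agent.Q177.Osc.Small

/-!
Kernels for general damping and the representation of Carathéodory solutions.
-/

namespace Pool.Agent.Q177.Osc

open MeasureTheory Set Real Filter
open scoped Topology NNReal

/-- the excess of `|g|` over `e^{-cs}` -/
noncomputable def excc (c : ℝ) (g : ℝ → ℝ) (s : ℝ) : ℝ := max (|g s| - Real.exp (-c * s)) 0

/-- fundamental pair of `U'' + c U' + lam U = 0`. -/
structure FundC (c lam : ℝ) (U g : ℝ → ℝ) : Prop where
  hU : ∀ s, HasDerivAt U (g s) s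
  hg : ∀ s, HasDerivAt g (-c * g s - lam * U s) s
  U0 : U 0 = 0
  g0 : g 0 = 1
  Ulim : Tendsto U atTop (𝓝 0)
  glim : Tendsto g atTop (𝓝 0)

namespace FundC
variable {c lam : ℝ} {U g : ℝ → ℝ}

lemma g_cont (h : FundC c lam U g) : Continuous g :=
  continuous_iff_continuousAt.mpr fun s => (h.hg s).continuousAt

lemma U_cont (h : FundC c lam U g) : Continuous U :=
  continuous_iff_continuousAt.mpr fun s => (h.hU s).continuousAt
end FundC

theorem exists_kernelC {c lam : ℝ} (hc : 0 < c) (h : 0 < lam) :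
    ∃ U g : ℝ → ℝ, FundC c lam U g ∧ IntegrableOn (excc c g) (Ioi 0) ∧
      ∫ s in Ioi (0 : ℝ), excc c g s ≤ 1 / c := by
  obtain ⟨U, g, hF, hi, hb⟩ := exists_kernel (lam := lam / c ^ 2) (by positivity)
  have hlim : Tendsto (fun s : ℝ => c * s) atTop atTop := tendsto_id.const_mul_atTop hc
  have hmul : ∀ s : ℝ, HasDerivAt (fun s : ℝ => c * s) c s := fun s => by
    simpa using (hasDerivAt_id s).const_mul c
  have he : excc c (fun s => g (c * s)) = fun s => exc g (c * s) := by
    funext s
    simp only [excc, exc]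
    rw [show -c * s = -(c * s) by ring]
  refine ⟨fun s => U (c * s) / c, fun s => g (c * s), ⟨fun s => ?_, fun s => ?_, ?_, ?_, ?_, ?_⟩,
    ?_, ?_⟩
  · have := ((hF.hU (c * s)).comp s (hmul s)).div_const c
    refine this.congr_deriv ?_
    field_simp
  · have := (hF.hg (c * s)).comp s (hmul s)
    refine this.congr_deriv ?_
    field_simp
  · simp [hF.U0]
  · simp [hF.g0]
  · simpa using (hF.Ulim.comp hlim).div_const c
  · exact hF.glim.comp hlim
  · rw [he]
    have := (integrableOn_Ioi_comp_mul_left_iff (exc g) 0 hc).mpr (by simpa using hi)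
    exact this
  · rw [he, integral_comp_mul_left_Ioi (exc g) 0 hc, mul_zero, smul_eq_mul, one_div]
    have : 0 < c⁻¹ := by positivity
    nlinarith

lemma ac_of_hasDerivWithinAt {f f' : ℝ → ℝ} {a b : ℝ} (hab : a ≤ b)
    (h : ∀ s ∈ Icc a b, HasDerivWithinAt f (f' s) (Icc a b) s)
    (hc : ContinuousOn f' (Icc a b)) : AbsolutelyContinuousOnInterval f a b := by
  obtain ⟨C, hC⟩ := isCompact_Icc.exists_bound_of_continuousOn hc
  have hl : LipschitzOnWith (Real.toNNReal C) f (Icc a b) :=
    (convex_Icc a b).lipschitzOnWith_of_nnnorm_hasDerivWithin_le h fun s hs => by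
      rw [← NNReal.coe_le_coe, coe_nnnorm]
      exact (hC s hs).trans (Real.le_coe_toNNReal C)
  rw [← uIcc_of_le hab] at hl
  exact hl.absolutelyContinuousOnInterval

lemma ae_ne (a : ℝ) : ∀ᵐ s : ℝ, s ≠ a := by
  rw [ae_iff]
  simp

/-- Variation of constants for Carathéodory solutions of the scalar equation. -/
theorem scalar_rep {c lam : ℝ} {U g : ℝ → ℝ} (hF : FundC c lam U g) {y y' φ : ℝ → ℝ} {T t : ℝ}
    (hTt : T ≤ t) (hy : ∀ s ∈ Icc T t, HasDerivWithinAt y (y' s) (Icc T t) s)
    (hy' : AbsolutelyContinuousOnInterval y' T t)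
    (hode : ∀ᵐ s : ℝ, s ∈ Icc T t → HasDerivAt y' (φ s - c * y' s - lam * y s) s) :
    y' t = (g (t - T) * y' T - lam * (U (t - T) * y T)) + ∫ s in T..t, g (t - s) * φ s := by
  have hy'c : ContinuousOn y' (Icc T t) := by
    have := hy'.continuousOn
    rwa [uIcc_of_le hTt] at this
  have hyac : AbsolutelyContinuousOnInterval y T t := ac_of_hasDerivWithinAt hTt hy hy'c
  have hsub : ∀ s : ℝ, HasDerivAt (fun s : ℝ => t - s) (-1) s := fun s => by
    simpa using (hasDerivAt_id s).const_sub t
  have hgd : ∀ s, HasDerivAt (fun s => g (t - s)) (c * g (t - s) + lam * U (t - s)) s := by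
    intro s
    have := (hF.hg (t - s)).comp s (hsub s)
    refine this.congr_deriv ?_
    ring
  have hUd : ∀ s, HasDerivAt (fun s => U (t - s)) (-g (t - s)) s := by
    intro s
    have := (hF.hU (t - s)).comp s (hsub s)
    refine this.congr_deriv ?_
    ring
  have hgc := hF.g_cont
  have hUc := hF.U_cont
  have hgac : AbsolutelyContinuousOnInterval (fun s => g (t - s)) T t :=
    ac_of_hasDerivWithinAt hTt (fun s _ => (hgd s).hasDerivWithinAt)
      (by fun_prop : Continuous fun s => c * g (t - s) + lam * U (t - s)).continuousOn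
  have hUac : AbsolutelyContinuousOnInterval (fun s => U (t - s)) T t :=
    ac_of_hasDerivWithinAt hTt (fun s _ => (hUd s).hasDerivWithinAt)
      (by fun_prop : Continuous fun s => -g (t - s)).continuousOn
  set W : ℝ → ℝ := fun s => g (t - s) * y' s - lam * (U (t - s) * y s) with hW
  have hWac : AbsolutelyContinuousOnInterval W T t :=
    (hgac.fun_mul hy').fun_sub ((hUac.fun_mul hyac).const_mul lam)
  have hint := hWac.integral_deriv_eq_sub
  have hWt : W t = y' t := by
    simp [hW, hF.g0, hF.U0]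
  rw [hWt] at hint
  have hWT : W T = g (t - T) * y' T - lam * (U (t - T) * y T) := rfl
  rw [hWT] at hint
  have hcongr : ∫ s in T..t, deriv W s = ∫ s in T..t, g (t - s) * φ s := by
    refine intervalIntegral.integral_congr_ae ?_
    filter_upwards [hode, ae_ne T, ae_ne t] with s h1 h2 h3 hs
    rw [uIoc_of_le hTt] at hs
    have hsI : s ∈ Ioo T t := ⟨hs.1, lt_of_le_of_ne hs.2 h3⟩
    have hsI' : s ∈ Icc T t := Ioo_subset_Icc_self hsI
    have d1 := h1 hsI'
    have d2 : HasDerivAt y (y' s) s := (hy s hsI').hasDerivAt (Icc_mem_nhds hsI.1 hsI.2)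
    have d3 := ((hgd s).mul d1).sub (((hUd s).mul d2).const_mul lam)
    have d4 : HasDerivAt W _ s := d3
    rw [d4.deriv]
    ring
  rw [← hcongr, hint]
  ring

end Pool.Agent.Q177.Osc
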