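import Mathlib
import Pool.Agent.Q177.Osc.Rep

/-!
Periodic Carathéodory solutions of first order and overdamped second order scalar equations.
-/

namespace Pool.Agent.Q177.Osc

open MeasureTheory Set Real Filter
open scoped Topology

/-- admissible scalar forcing: measurable, bounded, periodic -/
structure Forcing (P : ℝ) (ψ : ℝ → ℝ) : Prop where
  meas : Measurable ψ
  bdd : ∃ B, ∀ s, |ψ s| ≤ B
  per : ∀ s, ψ (s + P) = ψ s

lemma Forcing.locInt {P : ℝ} {ψ : ℝ → ℝ} (h : Forcing P ψ) : LocallyIntegrable ψ := by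
  obtain ⟨B, hB⟩ := h.bdd
  have h1 : LocallyIntegrable (fun _ : ℝ => B) := locallyIntegrable_const B
  refine h1.mono h.meas.aestronglyMeasurable (Eventually.of_forall fun s => ?_)
  rw [Real.norm_eq_abs, Real.norm_eq_abs]
  exact (hB s).trans (le_abs_self B)

lemma Forcing.expLocInt {P : ℝ} {ψ : ℝ → ℝ} (h : Forcing P ψ) (r : ℝ) :
    LocallyIntegrable (fun s => Real.exp (r * s) * ψ s) := by
  obtain ⟨B, hB⟩ := h.bdd
  have h1 : LocallyIntegrable (fun s : ℝ => Real.exp (r * s) * B) :=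
    (by fun_prop : Continuous fun s : ℝ => Real.exp (r * s) * B).locallyIntegrable
  refine h1.mono ((by fun_prop : Measurable fun s : ℝ => Real.exp (r * s)).mul
    h.meas).aestronglyMeasurable (Eventually.of_forall fun s => ?_)
  rw [norm_mul, norm_mul, Real.norm_eq_abs (ψ s), Real.norm_eq_abs B]
  exact mul_le_mul_of_nonneg_left ((hB s).trans (le_abs_self B)) (norm_nonneg _)

lemma Forcing.expInt {P : ℝ} {ψ : ℝ → ℝ} (h : Forcing P ψ) (r a b : ℝ) :
    IntervalIntegrable (fun s => Real.exp (r * s) * ψ s) volume a b :=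
  ((h.expLocInt r).integrableOn_isCompact isCompact_uIcc).mono_set
    uIoc_subset_uIcc |> intervalIntegrable_iff.mpr

/-- initial value of the periodic solution of `z' + r z = ψ` -/
noncomputable def zinit (r P : ℝ) (ψ : ℝ → ℝ) : ℝ :=
  (Real.exp (-r * P) * ∫ s in (0 : ℝ)..P, Real.exp (r * s) * ψ s) / (1 - Real.exp (-r * P))

/-- periodic solution of `z' + r z = ψ` -/
noncomputable def zsol (r P : ℝ) (ψ : ℝ → ℝ) (t : ℝ) : ℝ :=
  Real.exp (-r * t) * (zinit r P ψ + ∫ s in (0 : ℝ)..t, Real.exp (r * s) * ψ s)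

lemma zsol_zero (r P : ℝ) (ψ : ℝ → ℝ) : zsol r P ψ 0 = zinit r P ψ := by
  simp [zsol]

lemma one_sub_exp_pos {r P : ℝ} (hr : 0 < r) (hP : 0 < P) : 0 < 1 - Real.exp (-r * P) := by
  have : Real.exp (-r * P) < 1 := by
    rw [Real.exp_lt_one_iff]
    nlinarith [mul_pos hr hP]
  linarith

lemma zsol_periodic {r P : ℝ} {ψ : ℝ → ℝ} (h : Forcing P ψ) (hr : 0 < r) (hP : 0 < P) (t : ℝ) :
    zsol r P ψ (t + P) = zsol r P ψ t := by
  have h1 : ∫ s in (0 : ℝ)..(t + P), Real.exp (r * s) * ψ s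
      = (∫ s in (0 : ℝ)..P, Real.exp (r * s) * ψ s)
        + Real.exp (r * P) * ∫ s in (0 : ℝ)..t, Real.exp (r * s) * ψ s := by
    rw [← intervalIntegral.integral_add_adjacent_intervals (h.expInt r 0 P)
      (h.expInt r P (t + P))]
    congr 1
    have h2 := intervalIntegral.integral_comp_add_right (a := 0) (b := t)
      (fun s => Real.exp (r * s) * ψ s) P
    rw [zero_add] at h2
    rw [← h2, ← intervalIntegral.integral_const_mul]
    refine intervalIntegral.integral_congr fun s _ => ?_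
    show Real.exp (r * (s + P)) * ψ (s + P) = Real.exp (r * P) * (Real.exp (r * s) * ψ s)
    rw [h.per, mul_add, Real.exp_add]
    ring
  have h3 := one_sub_exp_pos hr hP
  have h4 : Real.exp (-r * P) * Real.exp (r * P) = 1 := by
    rw [← Real.exp_add]; simp
  have h5 : zinit r P ψ * (1 - Real.exp (-r * P))
      = Real.exp (-r * P) * ∫ s in (0 : ℝ)..P, Real.exp (r * s) * ψ s := by
    rw [zinit, div_mul_cancel₀ _ h3.ne']
  simp only [zsol]
  rw [h1, mul_add (-r), Real.exp_add]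
  linear_combination (-Real.exp (-r * t)) * h5 + (Real.exp (-r * t)
    * ∫ s in (0 : ℝ)..t, Real.exp (r * s) * ψ s) * h4

lemma zsol_ac {r P : ℝ} {ψ : ℝ → ℝ} (h : Forcing P ψ) (T : ℝ) (hT : 0 ≤ T) :
    AbsolutelyContinuousOnInterval (zsol r P ψ) 0 T := by
  have h1 : AbsolutelyContinuousOnInterval (fun t => Real.exp (-r * t)) 0 T :=
    ac_of_hasDerivWithinAt hT (fun s _ => (hasDerivAt_exp_mul r s).hasDerivWithinAt)
      (by fun_prop : Continuous fun s => -r * Real.exp (-r * s)).continuousOn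
  have h2 : AbsolutelyContinuousOnInterval
      (fun t => ∫ s in (0 : ℝ)..t, Real.exp (r * s) * ψ s) 0 T :=
    (h.expInt r 0 T).absolutelyContinuousOnInterval_intervalIntegral left_mem_uIcc
  have h3 : AbsolutelyContinuousOnInterval (fun _ : ℝ => zinit r P ψ) 0 T :=
    ac_of_hasDerivWithinAt hT (f' := fun _ => 0) (fun s _ => hasDerivWithinAt_const _ _ _)
      continuousOn_const
  exact h1.fun_mul (h3.fun_add h2)

lemma zsol_ode {r P : ℝ} {ψ : ℝ → ℝ} (h : Forcing P ψ) :
    ∀ᵐ t : ℝ, HasDerivAt (zsol r P ψ) (ψ t - r * zsol r P ψ t) t := by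
  filter_upwards [LocallyIntegrable.ae_hasDerivAt_integral (h.expLocInt r)] with t ht
  have h1 := (hasDerivAt_exp_mul r t).mul ((ht 0).const_add (zinit r P ψ))
  refine (HasDerivAt.congr_deriv (f := zsol r P ψ) h1 ?_)
  simp only [zsol]
  have h4 : Real.exp (-r * t) * Real.exp (r * t) = 1 := by
    rw [← Real.exp_add]; simp
  linear_combination ψ t * h4

lemma zsol_cont {r P : ℝ} {ψ : ℝ → ℝ} (h : Forcing P ψ) : Continuous (zsol r P ψ) := by
  have h2 : Continuous (fun t => ∫ s in (0 : ℝ)..t, Real.exp (r * s) * ψ s) :=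
    intervalIntegral.continuous_primitive (fun a b => h.expInt r a b) 0
  unfold zsol
  fun_prop

/-- displacement and velocity of the overdamped oscillator with rates `p > m` -/
noncomputable def ysol (p m P : ℝ) (ψ : ℝ → ℝ) (t : ℝ) : ℝ :=
  (zsol m P ψ t - zsol p P ψ t) / (p - m)
noncomputable def vsol (p m P : ℝ) (ψ : ℝ → ℝ) (t : ℝ) : ℝ :=
  (p * zsol p P ψ t - m * zsol m P ψ t) / (p - m)

variable {p m P : ℝ} {ψ : ℝ → ℝ}

lemma vsol_cont (h : Forcing P ψ) : Continuous (vsol p m P ψ) := by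
  have h1 := zsol_cont (r := p) h
  have h2 := zsol_cont (r := m) h
  unfold vsol
  fun_prop

lemma vsol_ac (h : Forcing P ψ) {T : ℝ} (hT : 0 ≤ T) :
    AbsolutelyContinuousOnInterval (vsol p m P ψ) 0 T := by
  have h1 := ((zsol_ac (r := p) h T hT).const_mul p).fun_sub ((zsol_ac (r := m) h T hT).const_mul m)
  have h2 := h1.const_mul (p - m)⁻¹
  refine (congrArg (fun F => AbsolutelyContinuousOnInterval F 0 T) ?_).mp h2
  funext t
  simp only [vsol]
  ring

lemma ysol_ac (h : Forcing P ψ) {T : ℝ} (hT : 0 ≤ T) :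
    AbsolutelyContinuousOnInterval (ysol p m P ψ) 0 T := by
  have h1 := (zsol_ac (r := m) h T hT).fun_sub (zsol_ac (r := p) h T hT)
  have h2 := h1.const_mul (p - m)⁻¹
  refine (congrArg (fun F => AbsolutelyContinuousOnInterval F 0 T) ?_).mp h2
  funext t
  simp only [ysol]
  ring

lemma vsol_ode (h : Forcing P ψ) (hpm : m < p) :
    ∀ᵐ t : ℝ, HasDerivAt (vsol p m P ψ)
      (ψ t - (p + m) * vsol p m P ψ t - p * m * ysol p m P ψ t) t := by
  filter_upwards [zsol_ode (r := p) h, zsol_ode (r := m) h] with t h1 h2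
  have h3 := ((h1.const_mul p).sub (h2.const_mul m)).div_const (p - m)
  have hne : p - m ≠ 0 := by linarith
  refine (HasDerivAt.congr_deriv (f := vsol p m P ψ) h3 ?_)
  simp only [vsol, ysol]
  field_simp
  ring

lemma ysol_eq (h : Forcing P ψ) {t : ℝ} (ht : 0 ≤ t) :
    ysol p m P ψ t = ysol p m P ψ 0 + ∫ s in (0 : ℝ)..t, vsol p m P ψ s := by
  have h1 := (ysol_ac (p := p) (m := m) h ht).integral_deriv_eq_sub
  have h2 : ∫ s in (0 : ℝ)..t, deriv (ysol p m P ψ) s = ∫ s in (0 : ℝ)..t, vsol p m P ψ s := by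
    refine intervalIntegral.integral_congr_ae ?_
    filter_upwards [zsol_ode (r := p) h, zsol_ode (r := m) h] with s h1 h2 _
    have h3 : HasDerivAt (ysol p m P ψ) _ s := (h2.sub h1).div_const (p - m)
    rw [h3.deriv]
    simp only [vsol]
    ring
  rw [← h2, h1]
  ring

lemma ysol_deriv (h : Forcing P ψ) {t : ℝ} (ht : 0 ≤ t) :
    HasDerivWithinAt (ysol p m P ψ) (vsol p m P ψ t) (Ici 0) t := by
  have hc := vsol_cont (p := p) (m := m) h
  have h1 : HasDerivAt (fun t => ysol p m P ψ 0 + ∫ s in (0 : ℝ)..t, vsol p m P ψ s)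
      (vsol p m P ψ t) t :=
    (intervalIntegral.integral_hasDerivAt_right (hc.intervalIntegrable _ _)
      hc.stronglyMeasurable.stronglyMeasurableAtFilter hc.continuousAt).const_add _
  exact h1.hasDerivWithinAt.congr (fun s hs => ysol_eq h hs) (ysol_eq h ht)

lemma vsol_periodic (h : Forcing P ψ) (hp : 0 < p) (hm : 0 < m) (hP : 0 < P) (t : ℝ) :
    vsol p m P ψ (t + P) = vsol p m P ψ t := by
  simp only [vsol, zsol_periodic h hp hP, zsol_periodic h hm hP]

end Pool.Agent.Q177.Osc
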