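import Mathlib
import Pool.Agent.Q177.Osc.Periodic
import Pool.Agent.Q177.Osc.Defs

/-!
The resonant periodic forcing with widely separated time scales.
-/

namespace Pool.Agent.Q177.Osc

open MeasureTheory Set Real Filter
open scoped Topology

/-- dimensionless switching times -/
noncomputable def sw (η N : ℝ) : ℕ → ℝ
  | 0 => √N
  | (j + 1) => N / η ^ (2 * j + 1)

lemma sw_pos {η N : ℝ} (hη : 0 < η) (hN : 1 ≤ N) (j : ℕ) : 0 < sw η N j := by
  rcases j with _ | j
  · exact Real.sqrt_pos.mpr (by linarith)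
  · simp only [sw]; positivity

lemma sw_mono {η N : ℝ} (hη : 0 < η) (hη1 : η < 1) (hN : 1 ≤ N) : Monotone (sw η N) := by
  refine monotone_nat_of_le_succ fun j => ?_
  rcases j with _ | j
  · simp only [sw, mul_zero, zero_add, pow_one]
    have h1 : √N ≤ N := by
      rw [Real.sqrt_le_left (by linarith)]
      nlinarith
    have h2 : N ≤ N / η := by
      rw [le_div_iff₀ hη]
      nlinarith
    exact h1.trans h2
  · simp only [sw]
    apply div_le_div_of_nonneg_left (by linarith) (by positivity)
    exact pow_le_pow_of_le_one hη.le hη1.le (by omega)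

/-- the reversed-time profile of the `k`-th component, for switching times `α` -/
noncomputable def prof (d : ℕ) (α : ℕ → ℝ) (k : ℕ) (τ : ℝ) : ℝ :=
  (Ico 0 (α 0)).indicator (fun _ => 1 / √d) τ - (Ico (α k) (α (k + 1))).indicator (fun _ => 1) τ

/-- the periodic forcing (period `α d`) -/
noncomputable def force (d : ℕ) (α : ℕ → ℝ) (k : ℕ) (s : ℝ) : ℝ :=
  prof d α k (α d - α d * Int.fract (s / α d))

lemma prof_measurable (d : ℕ) (α : ℕ → ℝ) (k : ℕ) : Measurable (prof d α k) :=
  (measurable_const.indicator measurableSet_Ico).sub (measurable_const.indicator measurableSet_Ico)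

lemma inv_sqrt_le_one {d : ℕ} (hd : 1 ≤ d) : 1 / √(d : ℝ) ≤ 1 := by
  have : (1 : ℝ) ≤ √(d : ℝ) := by
    rw [Real.one_le_sqrt]; exact_mod_cast hd
  rw [div_le_one (by linarith)]
  exact this

lemma prof_bdd {d : ℕ} (hd : 1 ≤ d) (α : ℕ → ℝ) (k : ℕ) (τ : ℝ) : |prof d α k τ| ≤ 2 := by
  have h1 := inv_sqrt_le_one hd
  have h0 : 0 ≤ 1 / √(d : ℝ) := by positivity
  have a1 : |(Ico 0 (α 0)).indicator (fun _ => 1 / √(d : ℝ)) τ| ≤ 1 := by
    by_cases h : τ ∈ Ico 0 (α 0)
    · rw [indicator_of_mem h, abs_of_nonneg h0]; exact h1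
    · rw [indicator_of_notMem h]; simp
  have a2 : |(Ico (α k) (α (k + 1))).indicator (fun _ => (1 : ℝ)) τ| ≤ 1 := by
    by_cases h : τ ∈ Ico (α k) (α (k + 1))
    · rw [indicator_of_mem h]; simp
    · rw [indicator_of_notMem h]; simp
  unfold prof
  exact (abs_sub _ _).trans (by linarith)

lemma force_forcing {d : ℕ} (hd : 1 ≤ d) {α : ℕ → ℝ} (hα : 0 < α d) (k : ℕ) :
    Forcing (α d) (force d α k) := by
  refine ⟨?_, ⟨2, fun s => prof_bdd hd _ _ _⟩, fun s => ?_⟩
  · exact (prof_measurable d α k).comp (by fun_prop)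
  · unfold force
    have : (s + α d) / α d = s / α d + 1 := by field_simp
    rw [this, Int.fract_add_one]

/-- the forcing vector has norm at most one -/
lemma prof_norm {d : ℕ} (hd : 1 ≤ d) {α : ℕ → ℝ} (hα : Monotone α) (τ : ℝ) :
    ‖(WithLp.toLp 2 fun k : Fin d => prof d α k τ : Vec d)‖ ≤ 1 := by
  rw [EuclideanSpace.norm_eq]
  have hd0 : (0 : ℝ) < d := by exact_mod_cast hd
  apply Real.sqrt_le_one.mpr
  by_cases h1 : τ ∈ Ico 0 (α 0)
  · have h2 : ∀ k : Fin d, prof d α k τ = 1 / √d := by
      intro k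
      have h3 : τ ∉ Ico (α k) (α (k + 1)) := by
        intro h
        have := hα (Nat.zero_le (k : ℕ))
        exact absurd (h1.2.trans_le (this.trans h.1)) (lt_irrefl _)
      rw [prof, indicator_of_mem h1, indicator_of_notMem h3, sub_zero]
    simp only [h2, Real.norm_eq_abs, sq_abs, div_pow, one_pow, Real.sq_sqrt hd0.le]
    simp
    rw [mul_inv_cancel₀ hd0.ne']
  · by_cases h2 : ∃ k : Fin d, τ ∈ Ico (α k) (α (k + 1))
    · obtain ⟨k, hk⟩ := h2
      have h3 : ∀ j : Fin d, j ≠ k → prof d α j τ = 0 := by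
        intro j hj
        have h4 : τ ∉ Ico (α j) (α (j + 1)) := by
          intro h
          rcases lt_or_gt_of_ne (fun h => hj (Fin.ext h) : (j : ℕ) ≠ k) with h5 | h5
          · have := hα (Nat.succ_le_of_lt h5)
            exact absurd (h.2.trans_le (this.trans hk.1)) (lt_irrefl _)
          · have := hα (Nat.succ_le_of_lt h5)
            exact absurd (hk.2.trans_le (this.trans h.1)) (lt_irrefl _)
        rw [prof, indicator_of_notMem h1, indicator_of_notMem h4, sub_zero]
      have h4 : prof d α k τ = -1 := by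
        rw [prof, indicator_of_notMem h1, indicator_of_mem hk, zero_sub]
      rw [Finset.sum_eq_single k]
      · show ‖prof d α k τ‖ ^ 2 ≤ 1
        rw [h4]; simp
      · intro j _ hj
        show ‖prof d α j τ‖ ^ 2 = 0
        rw [h3 j hj]; simp
      · intro h; exact absurd (Finset.mem_univ k) h
    · push Not at h2
      have h3 : ∀ j : Fin d, prof d α j τ = 0 := by
        intro j
        rw [prof, indicator_of_notMem h1, indicator_of_notMem (h2 j), sub_zero]
      have h4 : ∑ k : Fin d, ‖(WithLp.toLp 2 fun k : Fin d => prof d α k τ : Vec d) k‖ ^ 2 = 0 := by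
        refine Finset.sum_eq_zero fun j _ => ?_
        show ‖prof d α j τ‖ ^ 2 = 0
        rw [h3 j]; simp
      rw [h4]; norm_num

lemma integral_exp_neg {r : ℝ} (hr : 0 < r) (x y : ℝ) :
    ∫ s in x..y, Real.exp (-r * s) = (Real.exp (-r * x) - Real.exp (-r * y)) / r := by
  have h : ∀ s : ℝ, HasDerivAt (fun s => -(1 / r) * Real.exp (-r * s)) (Real.exp (-r * s)) s := by
    intro s
    refine ((hasDerivAt_exp_mul r s).const_mul (-(1 / r))).congr_deriv ?_
    field_simp
  rw [intervalIntegral.integral_eq_sub_of_hasDerivAt (fun s _ => h s)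
    ((by fun_prop : Continuous fun s : ℝ => Real.exp (-r * s)).intervalIntegrable _ _)]
  ring

lemma integral_ind {x y P : ℝ} (hx : 0 ≤ x) (hxy : x ≤ y) (hyP : y ≤ P) (F : ℝ → ℝ) :
    ∫ s in (0 : ℝ)..P, (Ico x y).indicator F s = ∫ s in x..y, F s := by
  rw [intervalIntegral.integral_of_le (by linarith), intervalIntegral.integral_of_le hxy,
    setIntegral_indicator measurableSet_Ico]
  refine setIntegral_congr_set ?_
  have h1 : (Ioc 0 P ∩ Ico x y : Set ℝ) =ᵐ[volume] (Ioc 0 P ∩ Ioc x y : Set ℝ) :=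
    (ae_eq_refl _).inter Ico_ae_eq_Ioc
  have h2 : (Ioc 0 P ∩ Ioc x y : Set ℝ) = Ioc x y := by
    rw [inter_eq_right]
    exact Ioc_subset_Ioc hx hyP
  rw [h2] at h1
  exact h1

/-- the value of the initial datum -/
lemma zinit_force {d : ℕ} {α : ℕ → ℝ} (h0 : 0 < α 0) (hα : Monotone α) {k : ℕ}
    (hk : k < d) {r : ℝ} (hr : 0 < r) :
    r * zinit r (α d) (force d α k) = (1 / √d * (1 - Real.exp (-r * α 0))
      - (Real.exp (-r * α k) - Real.exp (-r * α (k + 1)))) / (1 - Real.exp (-r * α d)) := by
  have hP : 0 < α d := h0.trans_le (hα (Nat.zero_le d))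
  set P := α d with hPdef
  have h1 : Real.exp (-r * P) * ∫ s in (0 : ℝ)..P, Real.exp (r * s) * force d α k s
      = ∫ s in (0 : ℝ)..P, Real.exp (-r * s) * prof d α k s := by
    have h2 := intervalIntegral.integral_comp_sub_left (a := 0) (b := P)
      (fun s => Real.exp (-r * s) * prof d α k s) P
    rw [sub_self, sub_zero] at h2
    rw [← h2, ← intervalIntegral.integral_const_mul]
    refine intervalIntegral.integral_congr_ae ?_
    filter_upwards [ae_ne P] with s hsP hs
    rw [uIoc_of_le hP.le] at hs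
    have hsP' : s < P := lt_of_le_of_ne hs.2 hsP
    have hfr : Int.fract (s / P) = s / P :=
      Int.fract_eq_self.mpr ⟨by have := hs.1; positivity, by rw [div_lt_one hP]; exact hsP'⟩
    have h3 : force d α k s = prof d α k (P - s) := by
      unfold force
      rw [← hPdef, hfr]
      congr 1
      field_simp
    rw [h3, ← mul_assoc, ← Real.exp_add]
    congr 2
    ring
  have h2 : ∀ s, Real.exp (-r * s) * prof d α k s
      = 1 / √d * (Ico 0 (α 0)).indicator (fun s => Real.exp (-r * s)) s
        - (Ico (α k) (α (k + 1))).indicator (fun s => Real.exp (-r * s)) s := by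
    intro s
    unfold prof
    by_cases a1 : s ∈ Ico 0 (α 0) <;> by_cases a2 : s ∈ Ico (α k) (α (k + 1)) <;>
      simp only [indicator_of_mem, indicator_of_notMem, a1, a2, not_false_eq_true] <;> ring
  have hcont : Continuous fun s : ℝ => Real.exp (-r * s) := by fun_prop
  have hind : ∀ x y, IntervalIntegrable ((Ico x y).indicator fun s => Real.exp (-r * s))
      volume 0 P := by
    intro x y
    rw [intervalIntegrable_iff_integrableOn_Ioc_of_le hP.le]
    exact ((hcont.integrableOn_Icc).mono_set Ioc_subset_Icc_self).indicator measurableSet_Ico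
  have h0P : α 0 ≤ P := hα (Nat.zero_le d)
  have h3 : ∫ s in (0 : ℝ)..P, Real.exp (-r * s) * prof d α k s
      = (1 / √d * (1 - Real.exp (-r * α 0))
      - (Real.exp (-r * α k) - Real.exp (-r * α (k + 1)))) / r := by
    simp_rw [h2]
    rw [intervalIntegral.integral_sub ((hind _ _).const_mul _) (hind _ _),
      intervalIntegral.integral_const_mul, integral_ind le_rfl h0.le h0P,
      integral_ind (h0.le.trans (hα (Nat.zero_le k))) (hα (Nat.le_succ k))
        (hα (Nat.succ_le_of_lt hk)), integral_exp_neg hr, integral_exp_neg hr]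
    simp only [mul_zero, Real.exp_zero]
    ring
  rw [zinit, h1, h3]
  rw [← mul_div_assoc, mul_div_cancel₀ _ hr.ne']

end Pool.Agent.Q177.Osc
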