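import Mathlib
import Pool.Agent.Q177.Osc.Force

/-!
Lower bound for the velocity constant.
-/

namespace Pool.Agent.Q177.Osc

open MeasureTheory Set Real Filter
open scoped Topology ENNReal

noncomputable def rp (η N : ℝ) (k : ℕ) : ℝ := (1 + √(1 - 4 * η ^ (2 * k) / N)) / 2
noncomputable def rm (η N : ℝ) (k : ℕ) : ℝ := (1 - √(1 - 4 * η ^ (2 * k) / N)) / 2

/-- the test matrix -/
noncomputable def testMat (d : ℕ) (η N c : ℝ) : Matrix (Fin d) (Fin d) ℝ :=
  Matrix.diagonal fun k : Fin d => c ^ 2 / N * η ^ (2 * (k : ℕ))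

lemma testMat_posDef {d : ℕ} {η N c : ℝ} (hη : 0 < η) (hN : 0 < N) (hc : 0 < c) :
    (testMat d η N c).PosDef := by
  unfold testMat
  rw [Matrix.posDef_diagonal_iff]
  intro k
  positivity

section
variable {η N : ℝ} (hη : 0 < η) (hη1 : η < 1) (hN : 4 < N)
include hη hη1 hN

lemma arg_pos (k : ℕ) : 0 < 1 - 4 * η ^ (2 * k) / N := by
  have h1 : η ^ (2 * k) ≤ 1 := pow_le_one₀ hη.le hη1.le
  have : 4 * η ^ (2 * k) / N < 1 := by
    rw [div_lt_one (by linarith)]; linarith
  linarith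

lemma sq_arg (k : ℕ) : √(1 - 4 * η ^ (2 * k) / N) ^ 2 = 1 - 4 * η ^ (2 * k) / N :=
  Real.sq_sqrt (arg_pos hη hη1 hN k).le

lemma rp_sub_rm (k : ℕ) : 0 < rp η N k - rm η N k := by
  have := Real.sqrt_pos.mpr (arg_pos hη hη1 hN k)
  unfold rp rm; linarith

lemma rp_mul_rm (k : ℕ) : rp η N k * rm η N k = η ^ (2 * k) / N := by
  have := sq_arg hη hη1 hN k
  unfold rp rm
  linear_combination (-1 / 4) * this

lemma rp_pos (k : ℕ) : 0 < rp η N k := by
  have _ := hN
  have := Real.sqrt_nonneg (1 - 4 * η ^ (2 * k) / N)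
  unfold rp; linarith

lemma rm_pos (k : ℕ) : 0 < rm η N k := by
  have h1 := rp_mul_rm hη hη1 hN k
  have h2 := rp_pos hη hη1 hN k
  have h3 : 0 < η ^ (2 * k) / N := by
    have : 0 < N := by linarith
    positivity
  rw [← h1] at h3
  exact (pos_iff_pos_of_mul_pos h3).mp h2

end

lemma rp_add_rm (η N : ℝ) (k : ℕ) : rp η N k + rm η N k = 1 := by
  unfold rp rm; ring

/-- switching times in real time -/
noncomputable def al (η N c : ℝ) (j : ℕ) : ℝ := sw η N j / c

noncomputable def uvec (d : ℕ) (η N c : ℝ) (t : ℝ) : Vec d := WithLp.toLp 2 fun k =>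
  ysol (c * rp η N k) (c * rm η N k) (al η N c d) (force d (al η N c) k) t
noncomputable def vvec (d : ℕ) (η N c : ℝ) (t : ℝ) : Vec d := WithLp.toLp 2 fun k =>
  vsol (c * rp η N k) (c * rm η N k) (al η N c d) (force d (al η N c) k) t
noncomputable def fvec (d : ℕ) (η N c : ℝ) (t : ℝ) : Vec d := WithLp.toLp 2 fun k =>
  force d (al η N c) k t

lemma hasDerivWithinAt_toLp {d : ℕ} {F : Fin d → ℝ → ℝ} {F' : Fin d → ℝ} {s : Set ℝ} {t : ℝ}
    (h : ∀ k, HasDerivWithinAt (F k) (F' k) s t) :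
    HasDerivWithinAt (fun t => (WithLp.toLp 2 fun k => F k t : Vec d)) (WithLp.toLp 2 F') s t := by
  have h1 : HasDerivWithinAt (fun t => fun k => F k t) F' s t := hasDerivWithinAt_pi.mpr h
  exact ((PiLp.continuousLinearEquiv 2 ℝ (fun _ : Fin d => ℝ)).symm.toContinuousLinearMap
    |>.hasFDerivAt.comp_hasDerivWithinAt t h1)

lemma hasDerivAt_toLp {d : ℕ} {F : Fin d → ℝ → ℝ} {F' : Fin d → ℝ} {t : ℝ}
    (h : ∀ k, HasDerivAt (F k) (F' k) t) :
    HasDerivAt (fun t => (WithLp.toLp 2 fun k => F k t : Vec d)) (WithLp.toLp 2 F') t := by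
  rw [← hasDerivWithinAt_univ]
  exact hasDerivWithinAt_toLp fun k => (h k).hasDerivWithinAt

lemma ac_toLp {d : ℕ} {F : Fin d → ℝ → ℝ} {a b : ℝ}
    (h : ∀ k, AbsolutelyContinuousOnInterval (F k) a b) :
    AbsolutelyContinuousOnInterval (fun t => (WithLp.toLp 2 fun k => F k t : Vec d)) a b := by
  have h1 : Tendsto (fun E : ℕ × (ℕ → ℝ × ℝ) => ∑ k, ∑ i ∈ Finset.range E.1,
      dist (F k (E.2 i).1) (F k (E.2 i).2))
      (AbsolutelyContinuousOnInterval.totalLengthFilter ⊓
        𝓟 (AbsolutelyContinuousOnInterval.disjWithin a b)) (𝓝 0) := by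
    have := tendsto_finsetSum Finset.univ fun k _ => h k
    simpa using this
  refine squeeze_zero (fun E => Finset.sum_nonneg fun i _ => dist_nonneg) (fun E => ?_) h1
  rw [Finset.sum_comm]
  refine Finset.sum_le_sum fun i _ => ?_
  rw [EuclideanSpace.dist_eq]
  refine Real.sqrt_le_iff.mpr ⟨Finset.sum_nonneg fun k _ => dist_nonneg, ?_⟩
  exact Finset.sum_sq_le_sq_sum_of_nonneg fun k _ => dist_nonneg

theorem solution {d : ℕ} (hd : 1 ≤ d) {η N c : ℝ} (hη : 0 < η) (hη1 : η < 1) (hN : 4 < N)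
    (hc : 0 < c) : IsSolution (testMat d η N c) c (fvec d η N c) (uvec d η N c)
      (vvec d η N c) := by
  have hP : 0 < al η N c d := div_pos (sw_pos hη (by linarith) d) hc
  have hF : ∀ k, Forcing (al η N c d) (force d (al η N c) k) := fun k => force_forcing hd hP k
  refine ⟨fun t ht => hasDerivWithinAt_toLp fun k => ysol_deriv (hF k) ht,
    fun T hT => ac_toLp fun k => vsol_ac (hF k) hT, ?_⟩
  have hode : ∀ᵐ t : ℝ, ∀ k : Fin d, HasDerivAt
      (vsol (c * rp η N k) (c * rm η N k) (al η N c d) (force d (al η N c) k))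
      (force d (al η N c) k t
        - (c * rp η N k + c * rm η N k) * vsol (c * rp η N k) (c * rm η N k) (al η N c d)
          (force d (al η N c) k) t
        - c * rp η N k * (c * rm η N k) * ysol (c * rp η N k) (c * rm η N k) (al η N c d)
          (force d (al η N c) k) t) t := by
    rw [ae_all_iff]
    intro k
    refine vsol_ode (hF k) ?_
    have := rp_sub_rm hη hη1 hN k
    nlinarith
  filter_upwards [hode] with t ht _
  have h1 := hasDerivAt_toLp ht
  refine HasDerivAt.congr_deriv (f := vvec d η N c) h1 ?_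
  ext k
  have e1 : c * rp η N k + c * rm η N k = c := by
    rw [← mul_add, rp_add_rm, mul_one]
  have e2 : c * rp η N k * (c * rm η N k) = c ^ 2 / N * η ^ (2 * (k : ℕ)) := by
    have := rp_mul_rm hη hη1 hN k
    calc c * rp η N k * (c * rm η N k) = c ^ 2 * (rp η N k * rm η N k) := by ring
      _ = _ := by rw [this]; ring
  have e3 : (Matrix.toEuclideanLin (testMat d η N c) (uvec d η N c t)) k
      = c ^ 2 / N * η ^ (2 * (k : ℕ)) * uvec d η N c t k := by
    rw [Matrix.toLpLin_apply]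
    simp [testMat, Matrix.mulVec_diagonal]
  simp only [PiLp.sub_apply, PiLp.smul_apply, smul_eq_mul]
  rw [e3, e1, e2]
  rfl

/-- the value of the `k`-th velocity component at time zero, times `c` -/
noncomputable def G (d : ℕ) (η N : ℝ) (k : ℕ) (ρ : ℝ) : ℝ :=
  (1 / √d * (1 - Real.exp (-ρ * sw η N 0))
      - (Real.exp (-ρ * sw η N k) - Real.exp (-ρ * sw η N (k + 1))))
    / (1 - Real.exp (-ρ * sw η N d))

noncomputable def Gd (d : ℕ) (η N : ℝ) (k : ℕ) : ℝ :=
  (G d η N k (rp η N k) - G d η N k (rm η N k)) / (rp η N k - rm η N k)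

lemma vvec_zero {d : ℕ} {η N c : ℝ} (hη : 0 < η) (hη1 : η < 1) (hN : 4 < N)
    (hc : 0 < c) (k : Fin d) : c * vvec d η N c 0 k = Gd d η N k := by
  have hN1 : 1 ≤ N := by linarith
  have h0 : 0 < al η N c 0 := div_pos (sw_pos hη hN1 0) hc
  have hmono : Monotone (al η N c) := fun i j hij =>
    div_le_div_of_nonneg_right (sw_mono hη hη1 hN1 hij) hc.le
  have h1 : ∀ ρ : ℝ, 0 < ρ →
      (c * ρ) * zinit (c * ρ) (al η N c d) (force d (al η N c) k) = G d η N k ρ := by
    intro ρ hρ
    rw [zinit_force h0 hmono k.2 (mul_pos hc hρ)]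
    have : ∀ j, -(c * ρ) * al η N c j = -ρ * sw η N j := by
      intro j
      unfold al
      field_simp
    simp only [this, G]
  show c * vsol (c * rp η N k) (c * rm η N k) (al η N c d) (force d (al η N c) k) 0 = _
  have hne := rp_sub_rm hη hη1 hN k
  unfold vsol Gd
  rw [zsol_zero, zsol_zero, h1 _ (rp_pos hη hη1 hN k), h1 _ (rm_pos hη hη1 hN k)]
  have hc' : c ≠ 0 := hc.ne'
  have hne' : rp η N k - rm η N k ≠ 0 := hne.ne'
  rw [← mul_sub c]
  field_simp

/-- any admissible constant dominates `|v(0)|` -/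
theorem admissible_ge {d : ℕ} (hd : 1 ≤ d) {η N c : ℝ} (hη : 0 < η) (hη1 : η < 1) (hN : 4 < N)
    (hc : 0 < c) {K : ℝ} (hK0 : 0 ≤ K) (hK : VelocityBound (testMat d η N c) c K) :
    ‖vvec d η N c 0‖ ≤ K := by
  have hN1 : 1 ≤ N := by linarith
  have hP : 0 < al η N c d := div_pos (sw_pos hη hN1 d) hc
  have hmono : Monotone (al η N c) := fun i j hij =>
    div_le_div_of_nonneg_right (sw_mono hη hη1 hN1 hij) hc.le
  have hF : ∀ k, Forcing (al η N c d) (force d (al η N c) k) := fun k => force_forcing hd hP k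
  have hfn : ∀ t, ‖fvec d η N c t‖ ≤ 1 := fun t => prof_norm hd hmono _
  have hess : essLimsup (fvec d η N c) ≤ 1 := by
    have h1 : limsup (fun t => ‖fvec d η N c t‖ₑ) (atTop ⊓ ae volume)
        ≤ limsup (fun _ : ℝ => (1 : ℝ≥0∞)) (atTop ⊓ ae volume) := by
      refine limsup_le_limsup (Eventually.of_forall fun t => ?_)
      show ‖fvec d η N c t‖ₑ ≤ 1
      rw [← ofReal_norm]
      exact ENNReal.ofReal_le_one.mpr (hfn t)
    refine h1.trans ?_
    exact limsup_le_of_le (h := Eventually.of_forall fun _ => le_rfl)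
  have hloc : LocallyIntegrableOn (fvec d η N c) (Ici 0) := by
    have h1 : LocallyIntegrable (fun _ : ℝ => (1 : ℝ)) := locallyIntegrable_const 1
    have hm : Measurable (fvec d η N c) := by
      have : Measurable fun t => fun k : Fin d => force d (al η N c) k t :=
        measurable_pi_iff.mpr fun k => (hF k).meas
      exact (PiLp.continuous_toLp 2 (fun _ : Fin d => ℝ)).measurable.comp this
    have h2 : LocallyIntegrable (fvec d η N c) := by
      refine h1.mono hm.aestronglyMeasurable (Eventually.of_forall fun t => ?_)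
      simpa using hfn t
    exact h2.locallyIntegrableOn _
  have hb := hK _ _ _ hloc (hess.trans_lt ENNReal.one_lt_top) (solution hd hη hη1 hN hc)
  have hper : ∀ n : ℕ, vvec d η N c (n * al η N c d) = vvec d η N c 0 := by
    intro n
    induction n with
    | zero => simp
    | succ n ih =>
      rw [← ih]
      have : ((n + 1 : ℕ) : ℝ) * al η N c d = n * al η N c d + al η N c d := by
        push_cast; ring
      rw [this]
      ext k
      exact vsol_periodic (hF k) (mul_pos hc (rp_pos hη hη1 hN k))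
        (mul_pos hc (rm_pos hη hη1 hN k)) hP _
  have hfreq : ∃ᶠ t in atTop, ‖vvec d η N c 0‖ₑ ≤ ‖vvec d η N c t‖ₑ := by
    rw [frequently_atTop]
    intro a
    obtain ⟨n, hn⟩ := exists_nat_ge (a / al η N c d)
    refine ⟨n * al η N c d, ?_, ?_⟩
    · rw [div_le_iff₀ hP] at hn; exact hn
    · rw [hper n]
  have h1 : ‖vvec d η N c 0‖ₑ ≤ limsup (fun t => ‖vvec d η N c t‖ₑ) atTop :=
    le_limsup_of_frequently_le hfreq
  have h2 : ‖vvec d η N c 0‖ₑ ≤ ENNReal.ofReal K := by
    refine h1.trans (hb.trans ?_)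
    calc ENNReal.ofReal K * essLimsup (fvec d η N c) ≤ ENNReal.ofReal K * 1 := by gcongr
      _ = _ := mul_one _
  rw [← ofReal_norm] at h2
  exact (ENNReal.ofReal_le_ofReal_iff hK0).mp h2

end Pool.Agent.Q177.Osc
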