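import Mathlib
import Pool.Agent.Q177.Osc.Rep
import Pool.Agent.Q177.Osc.Defs

/-!
Upper bound `K(A,c) ≤ (1 + √d)/c`.
-/

namespace Pool.Agent.Q177.Osc

open MeasureTheory Set Real Filter
open scoped Topology NNReal ENNReal

/-- clipping of the kernel to `[-e^{-cs}, e^{-cs}]` -/
noncomputable def clip (c : ℝ) (g : ℝ → ℝ) (s : ℝ) : ℝ :=
  max (min (g s) (Real.exp (-c * s))) (-Real.exp (-c * s))

lemma abs_clip_le (c : ℝ) (g : ℝ → ℝ) (s : ℝ) : |clip c g s| ≤ Real.exp (-c * s) := by
  have := Real.exp_pos (-c * s)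
  unfold clip
  rw [abs_le]
  exact ⟨le_max_right _ _, max_le (min_le_right _ _) (by linarith)⟩

lemma abs_sub_clip (c : ℝ) (g : ℝ → ℝ) (s : ℝ) : |g s - clip c g s| = excc c g s := by
  have h := Real.exp_pos (-c * s)
  unfold clip excc
  set e := Real.exp (-c * s)
  rcases le_total (g s) e with h1 | h1
  · rw [min_eq_left h1]
    rcases le_total (g s) (-e) with h2 | h2
    · rw [max_eq_right h2, abs_of_nonpos (by linarith : g s - -e ≤ 0),
        abs_of_nonpos (by linarith : g s ≤ 0), max_eq_left (by linarith)]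
      ring
    · rw [max_eq_left h2, sub_self, abs_zero]
      have : |g s| ≤ e := abs_le.mpr ⟨h2, h1⟩
      rw [max_eq_right (by linarith)]
  · rw [min_eq_right h1, max_eq_left (by linarith), abs_of_nonneg (by linarith : 0 ≤ g s - e),
      abs_of_nonneg (by linarith : 0 ≤ g s), max_eq_left (by linarith)]

lemma clip_cont {c : ℝ} {g : ℝ → ℝ} (hg : Continuous g) : Continuous (clip c g) := by
  unfold clip; fun_prop

lemma excc_cont {c : ℝ} {g : ℝ → ℝ} (hg : Continuous g) : Continuous (excc c g) := by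
  unfold excc; fun_prop

lemma excc_nonneg (c : ℝ) (g : ℝ → ℝ) (s : ℝ) : 0 ≤ excc c g s := le_max_right _ _

variable {d : ℕ}

/-- integral of the excess over a finite window -/
lemma window_excc {c : ℝ} {g : ℝ → ℝ} {B : ℝ} (hi : IntegrableOn (excc c g) (Ioi 0))
    (hb : ∫ s in Ioi (0 : ℝ), excc c g s ≤ B) {T t : ℝ} (hTt : T ≤ t) :
    ∫ s in T..t, excc c g (t - s) ≤ B := by
  rw [intervalIntegral.integral_comp_sub_left (fun s => excc c g s) t, sub_self]
  rw [intervalIntegral.integral_of_le (by linarith)]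
  refine le_trans ?_ hb
  exact setIntegral_mono_set hi (Eventually.of_forall fun s => excc_nonneg _ _ _)
    (Ioc_subset_Ioi_self.eventuallyLE)

lemma window_exp {c : ℝ} (hc : 0 < c) {T t : ℝ} (hTt : T ≤ t) :
    ∫ s in T..t, Real.exp (-c * (t - s)) ≤ 1 / c := by
  rw [intervalIntegral.integral_comp_sub_left (fun s => Real.exp (-c * s)) t, sub_self]
  have h : ∀ s : ℝ, HasDerivAt (fun s => -(1 / c) * Real.exp (-c * s)) (Real.exp (-c * s)) s := by
    intro s
    refine ((hasDerivAt_exp_mul c s).const_mul (-(1 / c))).congr_deriv ?_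
    field_simp
  rw [intervalIntegral.integral_eq_sub_of_hasDerivAt (fun s _ => h s)
    ((by fun_prop : Continuous fun s : ℝ => Real.exp (-c * s)).intervalIntegrable _ _)]
  have h1 := Real.exp_pos (-c * (t - T))
  have h2 : 0 < 1 / c := by positivity
  simp only [mul_zero, Real.exp_zero]
  nlinarith

theorem key_bound {A : Matrix (Fin d) (Fin d) ℝ} (hA : A.PosDef) {c : ℝ} (hc : 0 < c)
    {f u v : ℝ → Vec d} (hf : LocallyIntegrableOn f (Ici 0)) (hsol : IsSolution A c f u v)
    {T F : ℝ} (hT : 0 ≤ T) (hF0 : 0 ≤ F) (hF : ∀ᵐ s : ℝ, T ≤ s → ‖f s‖ ≤ F) :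
    ∃ r : ℝ → ℝ, Tendsto r atTop (𝓝 0) ∧ ∀ t, T ≤ t → ‖v t‖ ≤ r t + F * ((1 + √d) / c) := by
  choose U g hK hi hb using fun k => exists_kernelC hc (hA.eigenvalues_pos k)
  set b := hA.1.eigenvectorBasis with hbdef
  set lam := hA.1.eigenvalues with hlam
  have hlam0 : ∀ k, 0 < lam k := fun k => hA.eigenvalues_pos k
  have heig : ∀ k (x : Vec d), inner ℝ (b k) (Matrix.toEuclideanLin A x)
      = lam k * inner ℝ (b k) x := by
    intro k x
    have hsym := Matrix.isSymmetric_toEuclideanLin_iff.mpr hA.1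
    have h1 : Matrix.toEuclideanLin A (b k) = lam k • b k := by
      apply (WithLp.ofLp_injective 2)
      simpa using hA.1.mulVec_eigenvectorBasis k
    rw [← hsym (b k) x, h1, inner_smul_left]
    simp
  set R : ℝ → Vec d := fun t => WithLp.toLp 2 fun k =>
    g k (t - T) * inner ℝ (b k) (v T) - lam k * (U k (t - T) * inner ℝ (b k) (u T)) with hR
  refine ⟨fun t => ‖R t‖, ?_, fun t hTt => ?_⟩
  · have h1 : Tendsto R atTop (𝓝 (WithLp.toLp 2 fun _ => (0 : ℝ))) := by
      have hcont := PiLp.continuous_toLp 2 (fun _ : Fin d => ℝ)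
      refine (hcont.tendsto _).comp (tendsto_pi_nhds.mpr fun k => ?_)
      have hl : Tendsto (fun t : ℝ => t - T) atTop atTop :=
        tendsto_atTop_add_const_right _ _ tendsto_id
      have h2 := (((hK k).glim.comp hl).mul_const (inner ℝ (b k) (v T))).sub
        ((((hK k).Ulim.comp hl).mul_const (inner ℝ (b k) (u T))).const_mul (lam k))
      simpa using h2
    have h2 := h1.norm
    have h3 : ‖(WithLp.toLp 2 fun _ => (0 : ℝ) : Vec d)‖ = 0 := by
      rw [norm_eq_zero]; rfl
    rwa [h3] at h2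
  -- scalar components
  have ht0 : 0 ≤ t := hT.trans hTt
  have hIcc : Icc T t ⊆ Ici (0 : ℝ) := fun s hs => hT.trans hs.1
  have hfint : IntegrableOn f (Icc T t) :=
    hf.integrableOn_compact_subset hIcc isCompact_Icc
  have hfk : ∀ k, IntervalIntegrable (fun s => inner ℝ (b k) (f s)) volume T t := by
    intro k
    rw [intervalIntegrable_iff_integrableOn_Icc_of_le hTt]
    exact hfint.const_inner (b k)
  have hrep : ∀ k, inner ℝ (b k) (v t) = (R t) k
      + ∫ s in T..t, g k (t - s) * inner ℝ (b k) (f s) := by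
    intro k
    have hL : ∀ x : Vec d, (innerSL ℝ (b k)) x = inner ℝ (b k) x := fun x => rfl
    refine scalar_rep (hK k) (y := fun s => inner ℝ (b k) (u s))
      (y' := fun s => inner ℝ (b k) (v s)) hTt (fun s hs => ?_) ?_ ?_
    · have h1 := (hsol.deriv_u s (hIcc hs)).mono hIcc
      exact ((innerSL ℝ (b k)).hasFDerivAt.comp_hasDerivWithinAt s h1)
    · have h1 := (hsol.ac_v t ht0).mono (c := T) (d := t) (by
        rw [uIcc_of_le hTt, uIcc_of_le ht0]; exact Icc_subset_Icc_left hT)
      rw [absolutelyContinuousOnInterval_iff] at h1 ⊢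
      intro ε hε
      obtain ⟨δ, hδ, h2⟩ := h1 (ε / (‖b k‖ + 1)) (by positivity)
      refine ⟨δ, hδ, fun E hE hlen => ?_⟩
      have h3 := h2 E hE hlen
      have h4 : ∑ i ∈ Finset.range E.1, dist (inner ℝ (b k) (v (E.2 i).1))
          (inner ℝ (b k) (v (E.2 i).2))
          ≤ ∑ i ∈ Finset.range E.1, (‖b k‖ + 1) * dist (v (E.2 i).1) (v (E.2 i).2) := by
        refine Finset.sum_le_sum fun i _ => ?_
        rw [dist_eq_norm, dist_eq_norm, ← inner_sub_right]
        refine (norm_inner_le_norm _ _).trans ?_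
        exact mul_le_mul_of_nonneg_right (by linarith) (norm_nonneg _)
      rw [← Finset.mul_sum] at h4
      refine lt_of_le_of_lt h4 ?_
      rw [lt_div_iff₀ (by positivity)] at h3
      linarith
    · filter_upwards [hsol.ode] with s hs hsI
      have h1 := hs (hIcc hsI)
      have h2 : HasDerivAt (fun s => inner ℝ (b k) (v s)) _ s :=
        (innerSL ℝ (b k)).hasFDerivAt.comp_hasDerivAt s h1
      refine h2.congr_deriv ?_
      show inner ℝ (b k) _ = _
      rw [inner_sub_right, inner_sub_right, inner_smul_right, heig]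
  -- splitting
  set X : Vec d := WithLp.toLp 2 fun k =>
    ∫ s in T..t, clip c (g k) (t - s) * inner ℝ (b k) (f s) with hX
  set Y : Vec d := WithLp.toLp 2 fun k =>
    ∫ s in T..t, (g k (t - s) - clip c (g k) (t - s)) * inner ℝ (b k) (f s) with hY
  have hcl : ∀ k, IntervalIntegrable (fun s => clip c (g k) (t - s) * inner ℝ (b k) (f s))
      volume T t := fun k => (hfk k).continuousOn_mul (by
        have := clip_cont (c := c) (hK k).g_cont
        exact (this.comp (continuous_const.sub continuous_id)).continuousOn)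
  have hql : ∀ k, IntervalIntegrable
      (fun s => (g k (t - s) - clip c (g k) (t - s)) * inner ℝ (b k) (f s))
      volume T t := fun k => (hfk k).continuousOn_mul (by
        have h1 := clip_cont (c := c) (hK k).g_cont
        have h2 := (hK k).g_cont
        exact ((h2.comp (continuous_const.sub continuous_id)).sub
          (h1.comp (continuous_const.sub continuous_id))).continuousOn)
  have hsplit : ∀ k, ∫ s in T..t, g k (t - s) * inner ℝ (b k) (f s) = X k + Y k := by
    intro k
    show _ = (∫ s in T..t, clip c (g k) (t - s) * inner ℝ (b k) (f s))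
      + ∫ s in T..t, (g k (t - s) - clip c (g k) (t - s)) * inner ℝ (b k) (f s)
    rw [← intervalIntegral.integral_add (hcl k) (hql k)]
    refine intervalIntegral.integral_congr fun s _ => ?_
    ring
  have hvrep : b.repr (v t) = R t + X + Y := by
    ext k
    rw [OrthonormalBasis.repr_apply_apply, hrep k, hsplit k]
    simp only [PiLp.add_apply]
    ring
  have hfn : ∀ s, ‖b.repr (f s)‖ = ‖f s‖ := fun s => b.repr.norm_map _
  have hcomp_le : ∀ k s, |inner ℝ (b k) (f s)| ≤ ‖f s‖ := by
    intro k s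
    have := norm_inner_le_norm (𝕜 := ℝ) (b k) (f s)
    rwa [b.norm_eq_one k, one_mul, Real.norm_eq_abs] at this
  have hFae : ∀ᵐ s ∂(volume.restrict (uIoc T t)), ‖f s‖ ≤ F := by
    rw [uIoc_of_le hTt, ae_restrict_iff' measurableSet_Ioc]
    filter_upwards [hF] with s hs hsI
    exact hs hsI.1.le
  have hFI : ∀ᵐ s : ℝ, s ∈ Ioc T t → ‖f s‖ ≤ F := by
    filter_upwards [hF] with s hs hsI
    exact hs hsI.1.le
  -- bound of Y
  have hYk : ∀ k, |Y k| ≤ F * (1 / c) := by
    intro k
    have h1 : ‖∫ s in T..t, (g k (t - s) - clip c (g k) (t - s)) * inner ℝ (b k) (f s)‖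
        ≤ ∫ s in T..t, F * excc c (g k) (t - s) := by
      refine intervalIntegral.norm_integral_le_of_norm_le hTt ?_ ?_
      · filter_upwards [hFI] with s hs hsI
        rw [norm_mul, Real.norm_eq_abs, Real.norm_eq_abs, abs_sub_clip, mul_comm]
        exact mul_le_mul_of_nonneg_right ((hcomp_le k s).trans (hs hsI)) (excc_nonneg _ _ _)
      · have h1 := excc_cont (c := c) (hK k).g_cont
        exact (continuous_const.mul (h1.comp (continuous_const.sub
          continuous_id))).intervalIntegrable _ _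
    rw [intervalIntegral.integral_const_mul] at h1
    refine h1.trans ?_
    exact mul_le_mul_of_nonneg_left (window_excc (hi k) (hb k) hTt) hF0
  have hYn : ‖Y‖ ≤ √d * (F * (1 / c)) := by
    rw [EuclideanSpace.norm_eq]
    have h1 : ∑ k, ‖Y k‖ ^ 2 ≤ d * (F * (1 / c)) ^ 2 := by
      have : ∑ k : Fin d, ‖Y k‖ ^ 2 ≤ ∑ _k : Fin d, (F * (1 / c)) ^ 2 :=
        Finset.sum_le_sum fun k _ => by
          rw [Real.norm_eq_abs]
          exact pow_le_pow_left₀ (abs_nonneg _) (hYk k) 2
      simpa using this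
    calc √(∑ k, ‖Y k‖ ^ 2) ≤ √(d * (F * (1 / c)) ^ 2) := Real.sqrt_le_sqrt h1
      _ = √d * (F * (1 / c)) := by
          rw [Real.sqrt_mul (by positivity), Real.sqrt_sq (by positivity)]
  -- bound of X
  have hXn : ‖X‖ ≤ F * (1 / c) := by
    have h1 : ‖X‖ ^ 2 ≤ ‖X‖ * (F * (1 / c)) := by
      have e1 : ‖X‖ ^ 2 = ∫ s in T..t, ∑ k, X k * (clip c (g k) (t - s)
          * inner ℝ (b k) (f s)) := by
        rw [intervalIntegral.integral_finsetSum fun k _ => (hcl k).const_mul _,
          EuclideanSpace.norm_sq_eq]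
        refine Finset.sum_congr rfl fun k _ => ?_
        rw [intervalIntegral.integral_const_mul, Real.norm_eq_abs, sq_abs, sq]
      rw [e1]
      have e2 : ‖∫ s in T..t, ∑ k, X k * (clip c (g k) (t - s) * inner ℝ (b k) (f s))‖
          ≤ ∫ s in T..t, ‖X‖ * F * Real.exp (-c * (t - s)) := by
        refine intervalIntegral.norm_integral_le_of_norm_le hTt ?_ ?_
        · filter_upwards [hFI] with s hs hsI
          set Z : Vec d := WithLp.toLp 2 fun k =>
            clip c (g k) (t - s) * inner ℝ (b k) (f s) with hZ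
          have e3 : ∑ k, X k * (clip c (g k) (t - s) * inner ℝ (b k) (f s))
              = inner ℝ Z X := by
            rw [PiLp.inner_apply]
            refine Finset.sum_congr rfl fun k _ => ?_
            simp [hZ]
          have e4 : ‖Z‖ ≤ Real.exp (-c * (t - s)) * ‖f s‖ := by
            rw [← hfn s, EuclideanSpace.norm_eq, EuclideanSpace.norm_eq,
              ← Real.sqrt_sq (Real.exp_pos (-c * (t - s))).le,
              ← Real.sqrt_mul (by positivity)]
            apply Real.sqrt_le_sqrt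
            rw [Finset.mul_sum]
            refine Finset.sum_le_sum fun k _ => ?_
            rw [OrthonormalBasis.repr_apply_apply]
            show ‖clip c (g k) (t - s) * inner ℝ (b k) (f s)‖ ^ 2 ≤ _
            rw [norm_mul, mul_pow]
            apply mul_le_mul_of_nonneg_right _ (by positivity)
            rw [Real.norm_eq_abs]
            have := abs_clip_le c (g k) (t - s)
            exact pow_le_pow_left₀ (abs_nonneg _) this 2
          rw [e3]
          refine (norm_inner_le_norm _ _).trans ?_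
          have e5 : Real.exp (-c * (t - s)) * ‖f s‖ ≤ Real.exp (-c * (t - s)) * F :=
            mul_le_mul_of_nonneg_left (hs hsI) (Real.exp_pos _).le
          calc ‖Z‖ * ‖X‖ ≤ (Real.exp (-c * (t - s)) * F) * ‖X‖ :=
                mul_le_mul_of_nonneg_right (e4.trans e5) (norm_nonneg _)
            _ = ‖X‖ * F * Real.exp (-c * (t - s)) := by ring
        · exact (by fun_prop : Continuous fun s =>
            ‖X‖ * F * Real.exp (-c * (t - s))).intervalIntegrable _ _
      rw [intervalIntegral.integral_const_mul] at e2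
      refine (le_abs_self _).trans (e2.trans ?_)
      have := mul_le_mul_of_nonneg_left (window_exp hc hTt)
        (mul_nonneg (norm_nonneg X) hF0)
      linarith
    rcases (norm_nonneg X).eq_or_lt with h | h
    · rw [← h]; positivity
    · have : ‖X‖ * ‖X‖ ≤ ‖X‖ * (F * (1 / c)) := by rw [← sq]; exact h1
      exact le_of_mul_le_mul_left this h
  have hvn : ‖v t‖ = ‖R t + X + Y‖ := by rw [← hvrep, b.repr.norm_map]
  rw [hvn]
  calc ‖R t + X + Y‖ ≤ ‖R t‖ + ‖X‖ + ‖Y‖ := norm_add₃_le
    _ ≤ ‖R t‖ + F * (1 / c) + √d * (F * (1 / c)) := by linarith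
    _ = ‖R t‖ + F * ((1 + √d) / c) := by ring

/-- **Upper bound.** -/
theorem velocityBound_upper {A : Matrix (Fin d) (Fin d) ℝ} (hA : A.PosDef) {c : ℝ} (hc : 0 < c) :
    VelocityBound A c ((1 + √d) / c) := by
  intro f u v hf hlim hsol
  set C : ℝ := (1 + √d) / c with hC
  have hC0 : 0 < C := by positivity
  have hkey : ∀ F : ℝ≥0, essLimsup f < F →
      limsup (fun t => ‖v t‖ₑ) atTop ≤ ENNReal.ofReal C * F := by
    intro F hF
    have h1 : ∀ᶠ t in (atTop ⊓ ae (volume : Measure ℝ)), ‖f t‖ₑ < F :=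
      eventually_lt_of_limsup_lt hF
    rw [eventually_inf] at h1
    obtain ⟨s1, hs1, s2, hs2, h2⟩ := h1
    obtain ⟨T0, hT0⟩ := mem_atTop_sets.mp hs1
    have h3 : ∀ᵐ s : ℝ, max T0 0 ≤ s → ‖f s‖ ≤ F := by
      filter_upwards [hs2] with s hs hTs
      have h4 := h2 s ⟨hT0 s ((le_max_left _ _).trans hTs), hs⟩
      have h5 : ‖f s‖₊ < F := by exact_mod_cast h4
      exact_mod_cast h5.le
    obtain ⟨r, hr, hb⟩ := key_bound hA hc hf hsol (le_max_right T0 0) F.2 h3
    have h4 : Tendsto (fun t => ENNReal.ofReal (r t + F * C)) atTop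
        (𝓝 (ENNReal.ofReal (0 + F * C))) :=
      (ENNReal.continuous_ofReal.tendsto _).comp (hr.add_const _)
    have h5 : limsup (fun t => ‖v t‖ₑ) atTop
        ≤ limsup (fun t => ENNReal.ofReal (r t + F * C)) atTop := by
      refine limsup_le_limsup ?_
      filter_upwards [eventually_ge_atTop (max T0 0)] with t ht
      rw [← ofReal_norm]
      exact ENNReal.ofReal_le_ofReal (hb t ht)
    rw [h4.limsup_eq, zero_add, mul_comm, ENNReal.ofReal_mul hC0.le] at h5
    simpa using h5
  -- let F decrease to the essential limsup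
  refine ENNReal.le_of_forall_pos_le_add fun ε hε _ => ?_
  set L : ℝ≥0 := (essLimsup f).toNNReal with hL
  have hLe : essLimsup f = L := (ENNReal.coe_toNNReal hlim.ne).symm
  set C' : ℝ≥0 := Real.toNNReal C with hC'
  have hC'0 : 0 < C' := Real.toNNReal_pos.mpr hC0
  have h1 := hkey (L + ε / C') (by
    rw [hLe]
    exact_mod_cast lt_add_of_pos_right L (by positivity))
  refine h1.trans (le_of_eq ?_)
  rw [hLe]
  have : ENNReal.ofReal C = (C' : ℝ≥0∞) := rfl
  rw [this]
  norm_cast
  rw [mul_add, mul_div_cancel₀ _ hC'0.ne']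

end Pool.Agent.Q177.Osc
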