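import Mathlib
import Pool.Agent.Q177.Osc.Lower
import Pool.Agent.Q177.Osc.Upper

/-!
Limit of the velocity components and the sharp constants.
-/

namespace Pool.Agent.Q177.Osc

open MeasureTheory Set Real Filter
open scoped Topology ENNReal

section limits
variable {η : ℝ} (hη : 0 < η) (hη1 : η < 1) (k : ℕ)

lemma tendsto_sqrt_arg (η : ℝ) (k : ℕ) :
    Tendsto (fun N : ℝ => √(1 - 4 * η ^ (2 * k) / N)) atTop (𝓝 1) := by
  have h1 : Tendsto (fun N : ℝ => 4 * η ^ (2 * k) / N) atTop (𝓝 0) :=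
    tendsto_const_nhds.div_atTop tendsto_id
  have h2 := (tendsto_const_nhds (x := (1 : ℝ))).sub h1
  rw [sub_zero] at h2
  have h3 := (Real.continuous_sqrt.tendsto 1).comp h2
  rw [Real.sqrt_one] at h3
  exact h3

lemma tendsto_rp (η : ℝ) (k : ℕ) : Tendsto (fun N : ℝ => rp η N k) atTop (𝓝 1) := by
  have := ((tendsto_sqrt_arg η k).const_add 1).div_const 2
  norm_num at this
  exact this

lemma tendsto_rm (η : ℝ) (k : ℕ) : Tendsto (fun N : ℝ => rm η N k) atTop (𝓝 0) := by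
  have := ((tendsto_sqrt_arg η k).const_sub 1).div_const 2
  norm_num at this
  exact this

include hη hη1 in
lemma tendsto_rm_mul : Tendsto (fun N : ℝ => rm η N k * N) atTop (𝓝 (η ^ (2 * k))) := by
  have h1 : Tendsto (fun N : ℝ => η ^ (2 * k) / rp η N k) atTop (𝓝 (η ^ (2 * k) / 1)) :=
    tendsto_const_nhds.div (tendsto_rp η k) one_ne_zero
  rw [div_one] at h1
  refine h1.congr' ?_
  filter_upwards [eventually_gt_atTop 4] with N hN
  have h2 := rp_mul_rm hη hη1 hN k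
  have h3 := rp_pos hη hη1 hN k
  have h4 : N ≠ 0 := by linarith
  rw [div_eq_iff h3.ne']
  rw [eq_div_iff h4] at h2
  linear_combination -h2

lemma tendsto_sw (hη : 0 < η) (j : ℕ) : Tendsto (fun N : ℝ => sw η N j) atTop atTop := by
  rcases j with _ | j
  · exact Real.tendsto_sqrt_atTop
  · exact tendsto_id.atTop_div_const (by positivity)

include hη in
lemma tendsto_exp_rp (j : ℕ) :
    Tendsto (fun N : ℝ => Real.exp (-rp η N k * sw η N j)) atTop (𝓝 0) := by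
  have h1 : Tendsto (fun N : ℝ => rp η N k * sw η N j) atTop atTop :=
    (tendsto_rp η k).pos_mul_atTop one_pos (tendsto_sw hη j)
  have h2 := Real.tendsto_exp_neg_atTop_nhds_zero.comp h1
  refine h2.congr fun N => ?_
  simp [Function.comp]

include hη hη1 in
lemma tendsto_exp_rm_zero :
    Tendsto (fun N : ℝ => Real.exp (-rm η N k * sw η N 0)) atTop (𝓝 1) := by
  have h1 : Tendsto (fun N : ℝ => rm η N k * N / √N) atTop (𝓝 0) :=
    (tendsto_rm_mul hη hη1 k).div_atTop Real.tendsto_sqrt_atTop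
  have h2 : Tendsto (fun N : ℝ => -rm η N k * sw η N 0) atTop (𝓝 0) := by
    have h3 := h1.neg
    rw [neg_zero] at h3
    refine h3.congr' ?_
    filter_upwards [eventually_gt_atTop 0] with N hN
    have h5 : √N ≠ 0 := (Real.sqrt_pos.mpr hN).ne'
    simp only [sw]
    field_simp
    rw [Real.sq_sqrt hN.le]
  have := (Real.continuous_exp.tendsto 0).comp h2
  rw [Real.exp_zero] at this
  exact this

include hη hη1 in
lemma tendsto_exp_rm_succ (j : ℕ) :
    Tendsto (fun N : ℝ => Real.exp (-rm η N k * sw η N (j + 1))) atTop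
      (𝓝 (Real.exp (-(η ^ (2 * k) / η ^ (2 * j + 1))))) := by
  have h1 := ((tendsto_rm_mul hη hη1 k).div_const (η ^ (2 * j + 1))).neg
  have h2 := (Real.continuous_exp.tendsto _).comp h1
  refine h2.congr fun N => ?_
  simp only [Function.comp, sw]
  congr 1
  ring

end limits

/-- limit of each component, in the form of a lower bound -/
lemma Gd_lower {d : ℕ} (hd : 1 ≤ d) {η : ℝ} (hη : 0 < η) (hη1 : η < 1) {k : ℕ} {m : ℝ}
    (hm : m < 1 / √d + Real.exp (-η) - Real.exp (-(1 / η))) :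
    ∀ᶠ N : ℝ in atTop, m < Gd d η N k := by
  obtain ⟨e, rfl⟩ : ∃ e, d = e + 1 := ⟨d - 1, by omega⟩
  set B : ℝ := Real.exp (-(η ^ (2 * k) / η ^ (2 * k + 1))) with hB
  set C : ℝ := Real.exp (-(η ^ (2 * k) / η ^ (2 * e + 1))) with hC
  have hBe : B = Real.exp (-(1 / η)) := by
    rw [hB, pow_succ]
    congr 2
    field_simp
  have hC1 : C < 1 := by
    rw [hC, Real.exp_lt_one_iff]
    have : 0 < η ^ (2 * k) / η ^ (2 * e + 1) := by positivity
    linarith
  have hC0 : 0 < C := Real.exp_pos _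
  -- limit of exp(-rm sw_k)
  obtain ⟨A, hA, hAle⟩ : ∃ A : ℝ, Tendsto (fun N : ℝ => Real.exp (-rm η N k * sw η N k)) atTop
      (𝓝 A) ∧ Real.exp (-η) ≤ A := by
    rcases k with _ | j
    · exact ⟨1, tendsto_exp_rm_zero hη hη1 0, by rw [Real.exp_le_one_iff]; linarith⟩
    · refine ⟨_, tendsto_exp_rm_succ hη hη1 (j + 1) j, ?_⟩
      apply le_of_eq
      congr 2
      rw [show 2 * (j + 1) = (2 * j + 1) + 1 by ring, pow_succ]
      field_simp
  have hG1 : Tendsto (fun N : ℝ => G (e + 1) η N k (rp η N k)) atTop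
      (𝓝 ((1 / √((e + 1 : ℕ) : ℝ) * (1 - 0) - (0 - 0)) / (1 - 0))) := by
    unfold G
    exact ((((tendsto_exp_rp hη k 0).const_sub 1).const_mul _).sub
      ((tendsto_exp_rp hη k k).sub (tendsto_exp_rp hη k (k + 1)))).div
      ((tendsto_exp_rp hη k (e + 1)).const_sub 1) (by norm_num)
  have hG2 : Tendsto (fun N : ℝ => G (e + 1) η N k (rm η N k)) atTop
      (𝓝 ((1 / √((e + 1 : ℕ) : ℝ) * (1 - 1) - (A - B)) / (1 - C))) := by
    unfold G
    exact ((((tendsto_exp_rm_zero hη hη1 k).const_sub 1).const_mul _).sub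
      (hA.sub (tendsto_exp_rm_succ hη hη1 k k))).div
      ((tendsto_exp_rm_succ hη hη1 k e).const_sub 1) (by linarith)
  have hG : Tendsto (fun N : ℝ => Gd (e + 1) η N k) atTop (𝓝
      (((1 / √((e + 1 : ℕ) : ℝ) * (1 - 0) - (0 - 0)) / (1 - 0)
        - (1 / √((e + 1 : ℕ) : ℝ) * (1 - 1) - (A - B)) / (1 - C)) / (1 - 0))) := by
    unfold Gd
    exact (hG1.sub hG2).div ((tendsto_rp η k).sub (tendsto_rm η k)) (by norm_num)
  refine (tendsto_order.mp hG).1 m ?_
  have h1 : ((1 / √((e + 1 : ℕ) : ℝ) * (1 - 0) - (0 - 0)) / (1 - 0)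
        - (1 / √((e + 1 : ℕ) : ℝ) * (1 - 1) - (A - B)) / (1 - C)) / (1 - 0)
      = 1 / √((e + 1 : ℕ) : ℝ) + (A - B) / (1 - C) := by ring
  rw [h1]
  have h2 : A - B ≤ (A - B) / (1 - C) := by
    rw [le_div_iff₀ (by linarith)]
    have h3 : 0 ≤ A - B := by
      rw [hBe]
      have : Real.exp (-(1 / η)) ≤ Real.exp (-η) := by
        apply Real.exp_le_exp.mpr
        have : η ≤ 1 / η := by
          rw [le_div_iff₀ hη]; nlinarith
        linarith
      linarith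
    nlinarith
  rw [hBe] at h2 ⊢
  linarith

lemma norm_ge_of_comp {d : ℕ} {x : Vec d} {m : ℝ} (hm : 0 ≤ m) (h : ∀ k, m ≤ x k) :
    √d * m ≤ ‖x‖ := by
  rw [EuclideanSpace.norm_eq]
  have h1 : (d : ℝ) * m ^ 2 ≤ ∑ k, ‖x k‖ ^ 2 := by
    have : ∑ _k : Fin d, m ^ 2 ≤ ∑ k : Fin d, ‖x k‖ ^ 2 :=
      Finset.sum_le_sum fun k _ => by
        rw [Real.norm_eq_abs, sq_abs]
        exact pow_le_pow_left₀ hm (h k) 2
    simpa using this
  calc √d * m = √(d * m ^ 2) := by rw [Real.sqrt_mul (by positivity), Real.sqrt_sq hm]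
    _ ≤ _ := Real.sqrt_le_sqrt h1

/-- **Lower bound.** -/
theorem lower_bound {d : ℕ} (hd : 1 ≤ d) {δ : ℝ} (hδ : 0 < δ) (hδ1 : δ < 1) :
    ∃ η N₀ : ℝ, 0 < η ∧ η < 1 ∧ 4 < N₀ ∧ ∀ N, N₀ ≤ N → ∀ c, 0 < c → ∀ K, 0 ≤ K →
      VelocityBound (testMat d η N c) c K → 1 + √d - δ ≤ c * K := by
  have hd0 : (0 : ℝ) < d := by exact_mod_cast hd
  have hsd : 0 < √(d : ℝ) := Real.sqrt_pos.mpr hd0
  have hlim : Tendsto (fun η : ℝ => 1 / √(d : ℝ) + Real.exp (-η) - Real.exp (-(1 / η)))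
      (𝓝[>] 0) (𝓝 (1 / √(d : ℝ) + 1 - 0)) := by
    have h1 : Tendsto (fun η : ℝ => Real.exp (-η)) (𝓝[>] 0) (𝓝 1) := by
      have : Tendsto (fun η : ℝ => Real.exp (-η)) (𝓝 0) (𝓝 (Real.exp (-0))) :=
        (by fun_prop : Continuous fun η : ℝ => Real.exp (-η)).tendsto 0
      rw [neg_zero, Real.exp_zero] at this
      exact this.mono_left nhdsWithin_le_nhds
    have h2 : Tendsto (fun η : ℝ => Real.exp (-(1 / η))) (𝓝[>] 0) (𝓝 0) := by
      have : Tendsto (fun η : ℝ => 1 / η) (𝓝[>] 0) atTop := by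
        simpa using tendsto_inv_nhdsGT_zero (𝕜 := ℝ)
      exact Real.tendsto_exp_neg_atTop_nhds_zero.comp this
    exact (h1.const_add _).sub h2
  have hlt : (1 + √(d : ℝ) - δ) / √d < 1 / √(d : ℝ) + 1 - 0 := by
    rw [sub_zero, div_lt_iff₀ hsd]
    have : (1 / √(d : ℝ) + 1) * √d = 1 + √d := by field_simp
    rw [this]; linarith
  have hev := (tendsto_order.mp hlim).1 _ hlt
  obtain ⟨η, ⟨hη, hη1⟩, hm⟩ := ((Ioo_mem_nhdsGT (show (0 : ℝ) < 1 by norm_num) |>
    eventually_of_mem (P := fun η : ℝ => 0 < η ∧ η < 1) <| fun x hx => hx).and hev).exists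
  set m : ℝ := (1 + √(d : ℝ) - δ) / √d with hmdef
  have hm0 : 0 ≤ m := div_nonneg (by linarith) hsd.le
  have hall : ∀ᶠ N : ℝ in atTop, ∀ k : Fin d, m < Gd d η N k := by
    rw [eventually_all]
    exact fun k => Gd_lower hd hη hη1 hm
  obtain ⟨N₁, hN₁⟩ := eventually_atTop.mp hall
  refine ⟨η, max N₁ 5, hη, hη1, lt_of_lt_of_le (by norm_num) (le_max_right _ _), ?_⟩
  intro N hN c hc K hK0 hK
  have hN4 : 4 < N := lt_of_lt_of_le (by norm_num) ((le_max_right N₁ 5).trans hN)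
  have hNk := hN₁ N ((le_max_left _ _).trans hN)
  have h1 := admissible_ge hd hη hη1 hN4 hc hK0 hK
  have h2 : √(d : ℝ) * (m / c) ≤ ‖vvec d η N c 0‖ := by
    refine norm_ge_of_comp (by positivity) fun k => ?_
    rw [div_le_iff₀ hc, mul_comm, vvec_zero hη hη1 hN4 hc k]
    exact (hNk k).le
  have h3 : √(d : ℝ) * (m / c) ≤ K := h2.trans h1
  have h4 : √(d : ℝ) * m = 1 + √d - δ := by rw [hmdef]; field_simp
  calc 1 + √(d : ℝ) - δ = c * (√(d : ℝ) * (m / c)) := by rw [← h4]; field_simp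
    _ ≤ c * K := mul_le_mul_of_nonneg_left h3 hc.le

end Pool.Agent.Q177.Osc
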